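import Pool.Agent.W_bda8s_h78.Bridge

/-!
Schur's lemma and Burnside's theorem.
-/

set_option autoImplicit false

namespace Pool.Agent.W_bda8s_h78

open Pool.Agent.H58_bda8f3 Pool.Agent.W_bda8f3_h78 MonoidAlgebra

variable {k G : Type} [Field k] [Group G]

/-- Schur's lemma (take an eigenspace of `T`, it is stable). -/
theorem schur [IsAlgClosed k] {V : Type} [AddCommGroup V] [Module k V] [FiniteDimensional k V]
    (ρ : Representation k G V) (hρ : Irr ρ) (T : V →ₗ[k] V) (hT : ∀ g : G, T * ρ g = ρ g * T) :
    ∃ c : k, T = c • (1 : V →ₗ[k] V) := by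
  have := hρ.1
  obtain ⟨c, hc⟩ := Module.End.exists_eigenvalue T
  refine ⟨c, ?_⟩
  rcases hρ.2 (Module.End.eigenspace T c) (fun g u hu => by
    rw [Module.End.mem_eigenspace_iff] at hu ⊢
    have h1 := LinearMap.congr_fun (hT g) u
    rw [Module.End.mul_apply, Module.End.mul_apply, hu, map_smul] at h1
    exact h1) with h | h
  · exact absurd h hc
  · refine LinearMap.ext fun v => ?_
    have h1 : v ∈ Module.End.eigenspace T c := by rw [h]; trivial
    rw [Module.End.mem_eigenspace_iff] at h1
    rw [h1]
    rfl

/-- Burnside's theorem: the operators of an irreducible representation span all operators. From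
`simple_surj` in `H58_bda8f3/Main.lean`: the map `MonoidAlgebra k G → End V` is surjective. -/
theorem burnside [IsAlgClosed k] {V : Type} [AddCommGroup V] [Module k V] [FiniteDimensional k V]
    (ρ : Representation k G V) (hρ : Irr ρ) :
    Submodule.span k (Set.range fun g : G => (ρ g : V →ₗ[k] V)) = ⊤ := by
  classical
  have := hρ.1
  let S : Submonoid (Module.End k V) := MonoidHom.mrange ρ
  have hS : (S : Set (Module.End k V)) = Set.range fun g : G => (ρ g : V →ₗ[k] V) := rfl
  rw [← hS]
  set A : Subalgebra k (Module.End k V) := Algebra.adjoin k (S : Set (Module.End k V)) with hA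
  have hAS : Subalgebra.toSubmodule A = Submodule.span k (S : Set (Module.End k V)) := by
    rw [hA, Algebra.adjoin_eq_span]
    simp
  have hsm : ∀ (a : A) (v : V), a • v = (a : Module.End k V) v := fun a v => rfl
  have hgS : ∀ g : G, (ρ g : Module.End k V) ∈ A := fun g =>
    Algebra.subset_adjoin ⟨g, rfl⟩
  have hsimple : IsSimpleModule A V := by
    refine (isSimpleModule_iff A V).2 ?_
    refine { exists_pair_ne := ⟨⊥, ⊤, bot_ne_top⟩, eq_bot_or_eq_top := ?_ }
    intro W
    let W' : Submodule k V :=
      { carrier := W
        add_mem' := fun ha hb => W.add_mem ha hb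
        zero_mem' := W.zero_mem
        smul_mem' := by
          intro c x hx
          have := W.smul_mem (algebraMap k A c) hx
          rw [hsm] at this
          simpa using this }
    have hW' : Stable ρ W' := by
      intro g w hw
      have := W.smul_mem (⟨ρ g, hgS g⟩ : A) hw
      rw [hsm] at this
      exact this
    rcases hρ.2 W' hW' with h1 | h1
    · left
      rw [eq_bot_iff]
      intro x hx
      have : x ∈ W' := hx
      rw [h1] at this
      exact this
    · right
      rw [eq_top_iff]
      intro x _
      have : x ∈ W' := by rw [h1]; trivial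
      exact this
  have hend : ∀ g : Module.End A V, ∃ c : k, ∀ v, g v = c • v := by
    intro g
    have hlin : ∀ (c : k) (v : V), g (c • v) = c • g v := by
      intro c v
      have h1 := g.map_smul (algebraMap k A c) v
      rw [hsm, hsm] at h1
      exact h1
    let g' : Module.End k V := { toFun := g, map_add' := g.map_add, map_smul' := hlin }
    obtain ⟨c, hc⟩ := schur ρ hρ g' (fun x => by
      refine LinearMap.ext fun v => ?_
      have h1 := g.map_smul (⟨ρ x, hgS x⟩ : A) v
      rw [hsm, hsm] at h1
      exact h1)
    exact ⟨c, fun v => LinearMap.congr_fun hc v⟩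
  rw [eq_top_iff]
  intro f _
  rw [← hAS]
  let F : Module.End (Module.End A V) V :=
    { toFun := f
      map_add' := f.map_add
      map_smul' := by
        intro g v
        obtain ⟨c, hc⟩ := hend g
        simp only [RingHom.id_apply]
        rw [Module.End.smul_def, Module.End.smul_def, hc, hc, f.map_smul] }
  let b := Module.finBasis k V
  obtain ⟨r, hr⟩ := jacobson_density (R := A) F (Finset.univ.image b)
  have : (r : Module.End k V) = f := by
    apply b.ext
    intro i
    have := hr (b i) (Finset.mem_image_of_mem _ (Finset.mem_univ _))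
    exact this.symm
  rw [← this]
  exact r.2

end Pool.Agent.W_bda8s_h78
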