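import Pool.Agent.W_bda8s_h78.Faith
import Pool.Agent.W_bda8s_h78.Schur

/-!
A nonabelian nilpotent group has an irreducible representation of class 2.
-/

set_option autoImplicit false

namespace Pool.Agent.W_bda8s_h78

open Pool.Agent.H58_bda8f3 Pool.Agent.W_bda8f3_h78 MonoidAlgebra
open scoped commutatorElement

variable {k G : Type} [Field k] [Group G]

/-- Inflation of an irreducible representation of a quotient. -/
theorem irr_inflate (N : Subgroup G) [N.Normal] {V : Type} [AddCommGroup V] [Module k V]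
    (ρ : Representation k (G ⧸ N) V) (hρ : Irr ρ) :
    Irr (show Representation k G V from ρ.comp (QuotientGroup.mk' N)) := by
  refine ⟨hρ.1, fun U hU => hρ.2 U ?_⟩
  intro q u hu
  obtain ⟨g, rfl⟩ := QuotientGroup.mk'_surjective N q
  exact hU g u hu

theorem Center_le_lcs (h : ⁅(⊤ : Subgroup G), (⊤ : Subgroup G)⁆ ≤
    ⁅⁅(⊤ : Subgroup G), (⊤ : Subgroup G)⁆, (⊤ : Subgroup G)⁆) (n : ℕ) :
    ⁅(⊤ : Subgroup G), (⊤ : Subgroup G)⁆ ≤
      Subgroup.lowerCentralSeries (⊤ : Subgroup G) n := by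
  induction n with
  | zero => exact le_top
  | succ n ih =>
    exact h.trans (Subgroup.commutator_mono ih le_rfl)

/-- A nonabelian nilpotent group `G` has an irreducible representation `ρ` such that all
commutators act as scalars, but not all elements do. The subgroup `L = ⁅⁅⊤, ⊤⁆, ⊤⁆` is strictly
smaller than `⁅⊤, ⊤⁆`, because `G` is nilpotent and `⁅⊤, ⊤⁆ ≠ ⊥`; so there are `x`, `y` with
`⁅x, y⁆ ∉ L`. By `exists_irr_ne_one` for `G ⧸ L` (the order of which divides the order of `G`) and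
`irr_inflate` there is an irreducible `ρ` of `G` with `ρ ⁅x, y⁆ ≠ 1`, trivial on `L`. Since
`⁅⁅g, h⁆, z⁆ ∈ L` acts trivially, `ρ ⁅g, h⁆` commutes with `ρ z`. And `x ∈ scal ρ` would give
`ρ ⁅x, y⁆ = 1`. -/
theorem exists_class_two [Finite G] (hnil : Group.IsNilpotent G) (hG : (Nat.card G : k) ≠ 0)
    (hab : ¬ ∀ x y : G, x * y = y * x) :
    ∃ (V : Type) (_ : AddCommGroup V) (_ : Module k V) (ρ : Representation k G V), Irr ρ ∧
      (∀ g h : G, ⁅g, h⁆ ∈ scal ρ) ∧ scal ρ ≠ ⊤ := by
  set L : Subgroup G := ⁅⁅(⊤ : Subgroup G), (⊤ : Subgroup G)⁆, (⊤ : Subgroup G)⁆ with hL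
  have hLn : L.Normal := by rw [hL]; infer_instance
  have hex : ∃ x y : G, ⁅x, y⁆ ∉ L := by
    by_contra hcon
    push Not at hcon
    have h1 : ⁅(⊤ : Subgroup G), (⊤ : Subgroup G)⁆ ≤ L := by
      rw [Subgroup.commutator_le]
      intro x _ y _
      exact hcon x y
    obtain ⟨n, hn⟩ := Subgroup.nilpotent_iff_lowerCentralSeries.1 hnil
    have h2 : ⁅(⊤ : Subgroup G), (⊤ : Subgroup G)⁆ ≤ ⊥ := by
      rw [← hn]
      exact Center_le_lcs h1 n
    refine hab fun x y => ?_
    have h3 : ⁅x, y⁆ ∈ (⊥ : Subgroup G) :=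
      h2 (Subgroup.commutator_mem_commutator (Subgroup.mem_top x) (Subgroup.mem_top y))
    rw [Subgroup.mem_bot] at h3
    exact commutatorElement_eq_one_iff_mul_comm.1 h3
  obtain ⟨x, y, hxy⟩ := hex
  have hcard : (Nat.card (G ⧸ L) : k) ≠ 0 := by
    intro h0
    apply hG
    have h1 := Subgroup.card_eq_card_quotient_mul_card_subgroup L
    rw [h1, Nat.cast_mul, h0, zero_mul]
  have hne : (QuotientGroup.mk' L ⁅x, y⁆) ≠ 1 := by
    intro h0
    exact hxy ((QuotientGroup.eq_one_iff _).1 h0)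
  obtain ⟨V, iV, mV, ρ, hρ, hρne⟩ := exists_irr_ne_one (k := k) (G := G ⧸ L) hcard _ hne
  have hirr := irr_inflate L ρ hρ
  have hap : ∀ g : G, (show Representation k G V from ρ.comp (QuotientGroup.mk' L)) g =
      ρ (QuotientGroup.mk' L g) := fun g => rfl
  refine ⟨V, iV, mV, (show Representation k G V from ρ.comp (QuotientGroup.mk' L)), hirr, ?_, ?_⟩
  · intro g h z
    rw [hap, hap]
    have h1 : ⁅⁅g, h⁆, z⁆ ∈ L := by
      rw [hL]
      exact Subgroup.commutator_mem_commutator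
        (Subgroup.commutator_mem_commutator (Subgroup.mem_top g) (Subgroup.mem_top h))
        (Subgroup.mem_top z)
    have h2 : QuotientGroup.mk' L ⁅⁅g, h⁆, z⁆ = 1 := (QuotientGroup.eq_one_iff _).2 h1
    rw [map_commutatorElement] at h2
    have h3 := congrArg (fun t => ρ t) (commutatorElement_eq_one_iff_mul_comm.1 h2)
    rw [map_mul, map_mul] at h3
    exact h3
  · intro htop
    apply hρne
    have hx : x ∈ scal (show Representation k G V from ρ.comp (QuotientGroup.mk' L)) := by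
      rw [htop]; exact Subgroup.mem_top x
    have h1 := hx y
    rw [hap, hap] at h1
    have h2 : ρ (QuotientGroup.mk' L ⁅x, y⁆) = ρ (QuotientGroup.mk' L x) *
        ρ (QuotientGroup.mk' L y) * ρ (QuotientGroup.mk' L x)⁻¹ *
        ρ (QuotientGroup.mk' L y)⁻¹ := by
      rw [← map_mul, ← map_mul, ← map_mul, map_commutatorElement]
      rfl
    rw [h2, h1]
    have h3 : ρ (QuotientGroup.mk' L x) * ρ (QuotientGroup.mk' L x)⁻¹ = 1 := by
      rw [← map_mul, mul_inv_cancel, map_one]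
    have h4 : ρ (QuotientGroup.mk' L y) * ρ (QuotientGroup.mk' L y)⁻¹ = 1 := by
      rw [← map_mul, mul_inv_cancel, map_one]
    rw [mul_assoc (ρ (QuotientGroup.mk' L y)), h3, mul_one, h4]

end Pool.Agent.W_bda8s_h78
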