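import Pool.Agent.W_bda8s_h78.Bridge

/-!
Stable complements (Maschke).
-/

set_option autoImplicit false

namespace Pool.Agent.W_bda8s_h78

open Pool.Agent.H58_bda8f3 Pool.Agent.W_bda8f3_h78 MonoidAlgebra

variable {k G : Type} [Field k] [Group G]

/-- Maschke: a stable subspace has a stable complement. -/
theorem Compl_exists [Finite G] (hG : (Nat.card G : k) ≠ 0) {V : Type} [AddCommGroup V]
    [Module k V] (ρ : Representation k G V) (U : Submodule k V) (hU : Stable ρ U) :
    ∃ W : Submodule k V, Stable ρ W ∧ W ⊓ U = ⊥ ∧ W ⊔ U = ⊤ := by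
  have : NeZero (Nat.card G : k) := ⟨hG⟩
  have hc : Representation.IsSemisimpleRepresentation ρ := inferInstance
  obtain ⟨q, hq⟩ := hc.exists_isCompl (⟨U, fun g v hv => hU g v hv⟩ : Subrepresentation ρ)
  refine ⟨q.toSubmodule, fun g v hv => q.apply_mem_toSubmodule g hv, ?_, ?_⟩
  · have h1 := congrArg Subrepresentation.toSubmodule hq.symm.inf_eq_bot
    exact h1
  · have h1 := congrArg Subrepresentation.toSubmodule hq.symm.sup_eq_top
    exact h1

/-- A nonzero stable subspace contains a minimal one. -/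
theorem Compl_min {V : Type} [AddCommGroup V]
    [Module k V] [FiniteDimensional k V] (ρ : Representation k G V) (n : ℕ) :
    ∀ W : Submodule k V, Module.finrank k W = n → Stable ρ W → W ≠ ⊥ →
    ∃ S ≤ W, Stable ρ S ∧ S ≠ ⊥ ∧ ∀ S' ≤ S, Stable ρ S' → S' = ⊥ ∨ S' = S := by
  induction n using Nat.strong_induction_on with
  | _ n ih =>
    intro W hn hW hne
    by_cases h : ∀ S' ≤ W, Stable ρ S' → S' = ⊥ ∨ S' = W
    · exact ⟨W, le_rfl, hW, hne, h⟩
    · push Not at h
      obtain ⟨S', hle, hst, h0, h1⟩ := h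
      have hlt : Module.finrank k S' < n := by
        rw [← hn]
        exact Submodule.finrank_lt_finrank_of_lt (lt_of_le_of_ne hle h1)
      obtain ⟨S, hS, h2⟩ := ih _ hlt S' rfl hst h0
      exact ⟨S, hS.trans hle, h2⟩

/-- Maschke: a proper stable subspace `U` has a nonzero stable subspace `S` that meets it
trivially and is minimal: it contains no stable subspaces except `⊥` and `S` itself. (A stable
complement of `U` exists, for example from `MonoidAlgebra.Submodule.complementedLattice` for
`ρ.asModule`, or by averaging a projection; take a nonzero stable subspace of it of the smallest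
dimension.) -/
theorem exists_min_disjoint [Finite G] (hG : (Nat.card G : k) ≠ 0) {V : Type} [AddCommGroup V]
    [Module k V] [FiniteDimensional k V] (ρ : Representation k G V) (U : Submodule k V)
    (hU : Stable ρ U) (hne : U ≠ ⊤) :
    ∃ S : Submodule k V, Stable ρ S ∧ S ⊓ U = ⊥ ∧ S ≠ ⊥ ∧
      ∀ S' ≤ S, Stable ρ S' → S' = ⊥ ∨ S' = S := by
  obtain ⟨W, hW, h1, h2⟩ := Compl_exists hG ρ U hU
  have h3 : W ≠ ⊥ := by
    intro h
    apply hne
    rw [h, bot_sup_eq] at h2
    exact h2
  obtain ⟨S, hle, hS, h4, h5⟩ := Compl_min ρ _ W rfl hW h3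
  refine ⟨S, hS, ?_, h4, h5⟩
  exact le_bot_iff.1 (h1 ▸ inf_le_inf_right U hle)

end Pool.Agent.W_bda8s_h78
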