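import Pool.Agent.W_bda8s_h78.Schur

/-!
A bound for spaces of equivariant maps.
-/

set_option autoImplicit false

namespace Pool.Agent.W_bda8s_h78

open Pool.Agent.H58_bda8f3 Pool.Agent.W_bda8f3_h78 MonoidAlgebra

variable {k G : Type} [Field k] [Group G]

/-- Let `σ` be irreducible on `S`, and `W` a space of linear maps `S → X` such that every `g` has
an operator `T` on `X` with `f (σ g s) = T (f s)` for all `f ∈ W`. Then
`finrank W * finrank S ≤ finrank X`. By `burnside` every operator `A` of `S` has an operator `T` of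
`X` with `f (A s) = T (f s)` for all `f ∈ W`. Let `e` be a basis of `S` with `n` elements, `f` a
basis of `W`, and suppose `∑ c i j • f i (e j) = 0`. Apply the operator `T` for the matrix unit
`A` with `A (e l) = e 0`, `A (e j) = 0` for `j ≠ l`: `∑ i, c i l • f i (e 0) = 0`. The map
`φ = ∑ i, c i l • f i` of `W` satisfies `φ (e 0) = 0`, so `φ (A (e 0)) = 0` for all `A`, so
`φ = 0`, and `c i l = 0` for all `i`. So the `f i (e j)` are linearly independent in `X`. -/
theorem finrank_mul_le_of_equivariant [IsAlgClosed k] {S X : Type} [AddCommGroup S] [Module k S]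
    [FiniteDimensional k S] [AddCommGroup X] [Module k X] [FiniteDimensional k X]
    (σ : Representation k G S) (hσ : Irr σ) (W : Submodule k (S →ₗ[k] X))
    (hW : ∀ g : G, ∃ T : X →ₗ[k] X, ∀ f ∈ W, ∀ s : S, f (σ g s) = T (f s)) :
    Module.finrank k W * Module.finrank k S ≤ Module.finrank k X := by
  have hA : ∀ A : S →ₗ[k] S, ∃ T : X →ₗ[k] X, ∀ f ∈ W, ∀ s : S, f (A s) = T (f s) := by
    intro A
    have hmem : A ∈ Submodule.span k (Set.range fun g : G => (σ g : S →ₗ[k] S)) := by
      rw [burnside σ hσ]
      exact Submodule.mem_top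
    refine Submodule.span_induction (p := fun A _ => ∃ T : X →ₗ[k] X, ∀ f ∈ W, ∀ s : S,
      f (A s) = T (f s)) ?_ ?_ ?_ ?_ hmem
    · rintro _ ⟨g, rfl⟩
      exact hW g
    · exact ⟨0, fun f _ s => by rw [LinearMap.zero_apply, LinearMap.zero_apply, map_zero]⟩
    · rintro A B _ _ ⟨T, hT⟩ ⟨U, hU⟩
      refine ⟨T + U, fun f hf s => ?_⟩
      rw [LinearMap.add_apply, LinearMap.add_apply, map_add, hT f hf, hU f hf]
    · rintro c A _ ⟨T, hT⟩
      refine ⟨c • T, fun f hf s => ?_⟩
      rw [LinearMap.smul_apply, LinearMap.smul_apply, map_smul, hT f hf]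
  set b := Module.finBasis k W with hb
  let Ψ : (Fin (Module.finrank k W) → S) →ₗ[k] X :=
    ∑ i, ((b i : W) : S →ₗ[k] X).comp (LinearMap.proj i)
  have hΨ : ∀ s, Ψ s = ∑ i, ((b i : W) : S →ₗ[k] X) (s i) := by
    intro s
    show (∑ i, ((b i : W) : S →ₗ[k] X).comp (LinearMap.proj i)) s = _
    rw [LinearMap.sum_apply]
    rfl
  have hinj : Function.Injective Ψ := by
    rw [injective_iff_map_eq_zero]
    intro s hs
    have key : ∀ (l : Module.Dual k S) (i : Fin (Module.finrank k W)), l (s i) = 0 := by
      intro l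
      have h1 : ∀ t : S, ∑ i, l (s i) • ((b i : W) : S →ₗ[k] X) t = 0 := by
        intro t
        obtain ⟨T, hT⟩ := hA (l.smulRight t)
        have h2 : T (Ψ s) = ∑ i, l (s i) • ((b i : W) : S →ₗ[k] X) t := by
          rw [hΨ, map_sum]
          refine Finset.sum_congr rfl fun i _ => ?_
          rw [← hT _ (b i).2, LinearMap.smulRight_apply, map_smul]
        rw [← h2, hs, map_zero]
      have h3 : ∑ i, l (s i) • b i = 0 := by
        apply Subtype.ext
        apply LinearMap.ext
        intro t
        have h4 : ((∑ i, l (s i) • b i : W) : S →ₗ[k] X) t =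
            ∑ i, l (s i) • ((b i : W) : S →ₗ[k] X) t := by
          rw [Submodule.coe_sum, LinearMap.sum_apply]
          rfl
        exact h4.trans (h1 t)
      intro i
      exact Fintype.linearIndependent_iff.1 b.linearIndependent (fun i => l (s i)) h3 i
    funext i
    exact (Module.forall_dual_apply_eq_zero_iff k (s i)).1 fun l => key l i
  have h1 := LinearMap.finrank_le_finrank_of_injective hinj
  rw [Module.finrank_pi_fintype, Finset.sum_const, Finset.card_univ, Fintype.card_fin,
    smul_eq_mul] at h1
  exact h1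

end Pool.Agent.W_bda8s_h78
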