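import Pool.Agent.W_bda8s_h78.Over
import Pool.Agent.W_bda8s_h78.Compl
import Pool.Agent.W_bda8s_h78.Equi

/-!
The product of the degree of `V` and the square of the degree of a representation of the scalar
subgroup of `V` is at most the square of the largest degree.
-/

set_option autoImplicit false

namespace Pool.Agent.W_bda8s_h78

open Pool.Agent.H58_bda8f3 Pool.Agent.W_bda8f3_h78 MonoidAlgebra
open scoped commutatorElement

variable {k G : Type} [Field k] [Group G]

/-- restriction of a representation to a stable subspace -/
def HomB_restr {V : Type} [AddCommGroup V] [Module k V] (ρ : Representation k G V)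
    (U : Submodule k V) (hU : Stable ρ U) : Representation k G U where
  toFun g := (ρ g).restrict (hU g)
  map_one' := by
    ext u
    simp
  map_mul' a b := by
    ext u
    simp

/-- The space `V →ₗ[k] X` with `(g f) v = g (f (g⁻¹ v))` contains an irreducible subrepresentation:
there is an irreducible `τ` on a space `Y` and a bilinear `ev : V → (Y → X)`, such that
`ev (g v) (g y) = g (ev v y)`, and `ev v = 0` only for `v = 0`. (Let `Y` be a nonzero stable
subspace of `V →ₗ[k] X` of the smallest dimension, `ev v y = y v`. The `v` with `ev v = 0` form a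
stable subspace of `V`, different from `⊤` because `Y ≠ ⊥`, so it is `⊥`.) -/
theorem exists_hom_irr {V X : Type} [AddCommGroup V] [Module k V]
    [FiniteDimensional k V] [AddCommGroup X] [Module k X] [FiniteDimensional k X]
    (ρ : Representation k G V) (hρ : Irr ρ) (χ : Representation k G X) (hχ : Irr χ) :
    ∃ (Y : Type) (_ : AddCommGroup Y) (_ : Module k Y) (τ : Representation k G Y), Irr τ ∧
      FiniteDimensional k Y ∧ ∃ ev : V →ₗ[k] Y →ₗ[k] X, Function.Injective ev ∧
        ∀ (g : G) (v : V) (y : Y), ev (ρ g v) (τ g y) = χ g (ev v y) := by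
  classical
  obtain ⟨hV, hρ'⟩ := hρ
  obtain ⟨hX, hχ'⟩ := hχ
  let L : Representation k G (V →ₗ[k] X) := Representation.linHom ρ χ
  have hL : ∀ (g : G) (f : V →ₗ[k] X) (v : V), L g f v = χ g (f (ρ g⁻¹ v)) := fun g f v => rfl
  have hex : ∃ n : ℕ, ∃ U : Submodule k (V →ₗ[k] X), Stable L U ∧ U ≠ ⊥ ∧
      Module.finrank k U = n := by
    refine ⟨_, ⊤, fun g u _ => Submodule.mem_top, ?_, rfl⟩
    obtain ⟨v, hv⟩ := exists_ne (0 : V)
    obtain ⟨x, hx⟩ := exists_ne (0 : X)
    obtain ⟨φ, hφ⟩ := Module.Projective.exists_dual_ne_zero k hv
    intro htop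
    have h1 : (LinearMap.smulRight φ x : V →ₗ[k] X) ∈ (⊤ : Submodule k (V →ₗ[k] X)) :=
      Submodule.mem_top
    rw [htop, Submodule.mem_bot] at h1
    have h2 := LinearMap.congr_fun h1 v
    rw [LinearMap.smulRight_apply, LinearMap.zero_apply, smul_eq_zero] at h2
    exact h2.elim hφ hx
  obtain ⟨U, hUs, hU0, hUn⟩ := Nat.find_spec hex
  have hmin : ∀ U' : Submodule k (V →ₗ[k] X), Stable L U' → U' ≠ ⊥ →
      Module.finrank k U ≤ Module.finrank k U' := by
    intro U' h1 h2
    rw [hUn]
    exact Nat.find_min' hex ⟨U', h1, h2, rfl⟩
  let τ : Representation k G U := HomB_restr L U hUs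
  have hτ : ∀ (g : G) (y : U), ((τ g y : U) : V →ₗ[k] X) = L g y := fun g y => rfl
  refine ⟨U, inferInstance, inferInstance, τ, ⟨?_, ?_⟩, inferInstance,
    LinearMap.flip U.subtype, ?_, ?_⟩
  · exact (Submodule.nontrivial_iff_ne_bot).mpr hU0
  · intro U' hU'
    by_cases h0 : U' = ⊥
    · exact Or.inl h0
    right
    have h1 : Stable L (U'.map U.subtype) := by
      rintro g _ ⟨u, hu, rfl⟩
      exact ⟨τ g u, hU' g u hu, rfl⟩
    have h2 : U'.map U.subtype ≠ ⊥ := by
      intro hb
      apply h0
      exact Submodule.map_injective_of_injective U.injective_subtype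
        (by rw [hb, Submodule.map_bot])
    have h3 := hmin _ h1 h2
    have h4 : Module.finrank k (U'.map U.subtype) = Module.finrank k U' :=
      Submodule.finrank_map_subtype_eq U U'
    rw [h4] at h3
    exact Submodule.eq_top_of_finrank_eq (le_antisymm (Submodule.finrank_le U') h3)
  · have hev : ∀ (g : G) (v : V) (y : U), (LinearMap.flip U.subtype) (ρ g v) (τ g y) =
        χ g ((LinearMap.flip U.subtype) v y) := by
      intro g v y
      show ((τ g y : U) : V →ₗ[k] X) (ρ g v) = χ g ((y : V →ₗ[k] X) v)
      rw [hτ, hL]
      have : ρ g⁻¹ (ρ g v) = v := by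
        rw [← Module.End.mul_apply, ← map_mul, inv_mul_cancel, map_one, Module.End.one_apply]
      rw [this]
    rw [← LinearMap.ker_eq_bot]
    rcases hρ' (LinearMap.ker (LinearMap.flip U.subtype)) (by
      intro g v hv
      rw [LinearMap.mem_ker] at hv ⊢
      ext y
      have h1 := hev g v (τ g⁻¹ y)
      have h2 : τ g (τ g⁻¹ y) = y := by
        rw [← Module.End.mul_apply, ← map_mul, mul_inv_cancel, map_one, Module.End.one_apply]
      rw [h2, hv] at h1
      rw [h1]
      simp) with h | h
    · exact h
    · exfalso
      apply hU0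
      rw [Submodule.eq_bot_iff]
      intro y hy
      ext v
      have h1 : v ∈ LinearMap.ker (LinearMap.flip U.subtype) := by rw [h]; trivial
      rw [LinearMap.mem_ker] at h1
      have h2 := LinearMap.congr_fun h1 (⟨y, hy⟩ : U)
      exact h2
  · intro g v y
    show ((τ g y : U) : V →ₗ[k] X) (ρ g v) = χ g ((y : V →ₗ[k] X) v)
    rw [hτ, hL]
    have : ρ g⁻¹ (ρ g v) = v := by
      rw [← Module.End.mul_apply, ← map_mul, inv_mul_cancel, map_one, Module.End.one_apply]
    rw [this]

/-- The main inequality. Let `χ` be an irreducible representation of `G` over the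
irreducible `σ` of `R = scal ρ` (`exists_over`), and `Y`, `τ`, `ev` as in `exists_hom_irr`. By
`schur`, every `r ∈ R` acts on `V` as a scalar `c r`, so
`c r • ev v (τ r y) = χ r (ev v y)`. For an `R`-stable subspace `U` of `Y` let
`V_U = {v | ev v y = 0 for all y ∈ U}`. Claim: `t ^ 2 * (finrank V - finrank V_U) ≤
finrank U * finrank X`, `t = finrank E`. Take `U` of the largest dimension among the `R`-stable `U`
with this inequality (`U = ⊥` has it). If `U ≠ ⊤`, take `S` from `exists_min_disjoint` for the
restriction of `τ` to `R`. The restriction of `ev` to `S` is a linear map `V → (S →ₗ[k] X)` with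
kernel `V_S`; its range `W` has dimension `finrank V - finrank V_S`, and by
`finrank_mul_le_of_equivariant` `finrank W * finrank S ≤ finrank X`. Some `ev v` is nonzero on `S`
(otherwise `V_S = ⊤`, and there is nothing to prove), its kernel on `S` is `R`-stable so it is
injective on `S`, its image is an `R`-stable nonzero subspace of `X`, so `t ≤ finrank S` by
`finrank_le_of_stable`. So `t ^ 2 * finrank W ≤ finrank S * (finrank S * finrank W) ... `; precisely
`t * finrank W ≤ finrank S * finrank W ≤ finrank X` and
`t ^ 2 * finrank W ≤ t * finrank X ≤ finrank S * finrank X`. Since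
`V_(U ⊔ S) = V_U ⊓ V_S`, the codimensions add up, and `U ⊔ S` has the inequality: contradiction.
For `U = ⊤`: `V_U = ⊥` because `ev` is injective, so
`t ^ 2 * finrank V ≤ finrank Y * finrank X ≤ B ^ 2`. -/
theorem finrank_mul_sq_le [Finite G] [IsAlgClosed k] (hG : (Nat.card G : k) ≠ 0) (B : ℕ)
    (hB : ∀ d ∈ simpleDims k G, d ≤ B) {V : Type} [AddCommGroup V] [Module k V]
    (ρ : Representation k G V) (hρ : Irr ρ) (t : ℕ) (ht : t ∈ simpleDims k (scal ρ)) :
    Module.finrank k V * t ^ 2 ≤ B ^ 2 := by
  classical
  obtain ⟨E, _, _, σ, hσ, hEt⟩ := (mem_simpleDims_iff t).mp ht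
  obtain ⟨X, _, _, χ, hχ, _, f, hf, hfe⟩ := exists_over (scal ρ) E σ hσ
  have : FiniteDimensional k V := hρ.fd
  have : FiniteDimensional k X := hχ.fd
  have : FiniteDimensional k E := hσ.fd
  obtain ⟨Y, _, _, τ, hτ, _, ev, hev, heq⟩ := exists_hom_irr ρ hρ χ hχ
  have hXB : Module.finrank k X ≤ B := hB _ ((mem_simpleDims_iff _).mpr ⟨X, _, _, χ, hχ, rfl⟩)
  have hYB : Module.finrank k Y ≤ B := hB _ ((mem_simpleDims_iff _).mpr ⟨Y, _, _, τ, hτ, rfl⟩)
  have hRG : (Nat.card (scal ρ) : k) ≠ 0 := by
    intro h0
    apply hG
    rw [← Subgroup.card_mul_index (scal ρ), Nat.cast_mul, h0, zero_mul]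
  have hc : ∀ r : scal ρ, ∃ c : k, ρ r = c • (1 : V →ₗ[k] V) :=
    fun r => schur ρ hρ (ρ r) (fun g => r.2 g)
  choose c hc using hc
  have := hρ.1
  have hc0 : ∀ r, c r ≠ 0 := by
    intro r h0
    have h1 : ρ (r : G) * ρ (r : G)⁻¹ = 1 := by rw [← map_mul, mul_inv_cancel, map_one]
    rw [hc, h0, zero_smul, zero_mul] at h1
    exact zero_ne_one h1
  have heqR : ∀ (r : scal ρ) (v : V) (y : Y), c r • ev v (τ r y) = χ r (ev v y) := by
    intro r v y
    rw [← heq, hc]
    simp
  let τR : Representation k (scal ρ) Y := τ.comp (scal ρ).subtype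
  let res : ∀ U : Submodule k Y, V →ₗ[k] (U →ₗ[k] X) := fun U =>
    (LinearMap.lcomp k X U.subtype) ∘ₗ ev
  have hres : ∀ (U : Submodule k Y) (v : V) (u : U), res U v u = ev v u := fun U v u => rfl
  have hrk : ∀ U : Submodule k Y, Module.finrank k (LinearMap.range (res U)) +
      Module.finrank k (LinearMap.ker (res U)) = Module.finrank k V :=
    fun U => LinearMap.finrank_range_add_finrank_ker (res U)
  have hker : ∀ U S : Submodule k Y, LinearMap.ker (res (U ⊔ S)) =
      LinearMap.ker (res U) ⊓ LinearMap.ker (res S) := by
    intro U S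
    ext v
    rw [Submodule.mem_inf, LinearMap.mem_ker, LinearMap.mem_ker, LinearMap.mem_ker]
    constructor
    · intro h
      constructor
      · ext u
        exact LinearMap.congr_fun h ⟨u, le_sup_left (a := U) (b := S) u.2⟩
      · ext u
        exact LinearMap.congr_fun h ⟨u, le_sup_right (a := U) (b := S) u.2⟩
    · rintro ⟨h1, h2⟩
      ext ⟨u, hu⟩
      obtain ⟨a, ha, b, hb, rfl⟩ := Submodule.mem_sup.mp hu
      have e1 : ev v a = 0 := LinearMap.congr_fun h1 ⟨a, ha⟩
      have e2 : ev v b = 0 := LinearMap.congr_fun h2 ⟨b, hb⟩
      show ev v (a + b) = 0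
      rw [map_add, e1, e2, add_zero]
  have key : ∀ n : ℕ, ∃ U : Submodule k Y, Stable τR U ∧
      t ^ 2 * Module.finrank k (LinearMap.range (res U)) ≤
        Module.finrank k U * Module.finrank k X ∧ (n ≤ Module.finrank k U ∨ U = ⊤) := by
    intro n
    induction n with
    | zero =>
      refine ⟨⊥, ?_, ?_, Or.inl (Nat.zero_le _)⟩
      · intro g u hu
        rw [Submodule.mem_bot] at hu ⊢
        rw [hu, map_zero]
      · have : LinearMap.range (res ⊥) = ⊥ := by
          rw [LinearMap.range_eq_bot]
          ext v u
          rw [hres, (Submodule.mem_bot k).mp u.2]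
          simp
        rw [this, finrank_bot, mul_zero]
        exact Nat.zero_le _
    | succ n ih =>
      obtain ⟨U, hU, hUt, hn⟩ := ih
      by_cases htop : U = ⊤
      · exact ⟨U, hU, hUt, Or.inr htop⟩
      have hn' : n ≤ Module.finrank k U := hn.resolve_right htop
      obtain ⟨S, hS, hSU, hS0, hSmin⟩ := exists_min_disjoint hRG τR U hU htop
      have hUS : Module.finrank k (U ⊔ S : Submodule k Y) =
          Module.finrank k U + Module.finrank k S := by
        have h1 := Submodule.finrank_sup_add_finrank_inf_eq U S
        rw [inf_comm, hSU, finrank_bot, add_zero] at h1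
        exact h1
      have hSpos : 0 < Module.finrank k S := by
        rw [Nat.pos_iff_ne_zero, Ne, Submodule.finrank_eq_zero]
        exact hS0
      refine ⟨U ⊔ S, ?_, ?_, Or.inl (by omega)⟩
      · intro g u hu
        obtain ⟨a, ha, b, hb, rfl⟩ := Submodule.mem_sup.mp hu
        rw [map_add]
        exact Submodule.add_mem_sup (hU g a ha) (hS g b hb)
      · -- dimension of the range on `S`
        have hσ' : Irr (HomB_restr τR S hS) := by
          refine ⟨(Submodule.nontrivial_iff_ne_bot).mpr hS0, ?_⟩
          intro S' hS'
          have h1 : Stable τR (S'.map S.subtype) := by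
            rintro g _ ⟨u, hu, rfl⟩
            exact ⟨HomB_restr τR S hS g u, hS' g u hu, rfl⟩
          rcases hSmin _ (Submodule.map_subtype_le S S') h1 with h2 | h2
          · left
            exact Submodule.map_injective_of_injective S.injective_subtype
              (by rw [h2, Submodule.map_bot])
          · right
            rw [eq_top_iff]
            intro s _
            have : (s : Y) ∈ S'.map S.subtype := by rw [h2]; exact s.2
            obtain ⟨s', hs', he⟩ := this
            have : s' = s := Subtype.ext he
            rwa [← this]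
        have hW := finrank_mul_le_of_equivariant (HomB_restr τR S hS) hσ'
          (LinearMap.range (res S)) (fun r => by
            refine ⟨(c r)⁻¹ • χ r, ?_⟩
            rintro _ ⟨v, rfl⟩ s
            show ev v (τ r s) = (c r)⁻¹ • χ r (ev v s)
            rw [← heqR, smul_smul, inv_mul_cancel₀ (hc0 r), one_smul])
        have hSt : t ^ 2 * Module.finrank k (LinearMap.range (res S)) ≤
            Module.finrank k S * Module.finrank k X := by
          by_cases h0 : ∃ v, res S v ≠ 0
          · obtain ⟨v, hv⟩ := h0
            have hinj : LinearMap.ker (res S v) = ⊥ := by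
              rcases hσ'.2 (LinearMap.ker (res S v)) (by
                intro r s hs
                rw [LinearMap.mem_ker, hres] at hs ⊢
                show ev v (τ r s) = 0
                have h1 := heqR r v s
                rw [hs, map_zero, smul_eq_zero] at h1
                exact h1.resolve_left (hc0 r)) with h | h
              · exact h
              · exact absurd (LinearMap.ker_eq_top.mp h) hv
            have hI := finrank_le_of_stable (scal ρ) χ hχ σ hσ f hf hfe
              (LinearMap.range (res S v)) (by
                rintro r _ ⟨s, rfl⟩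
                refine ⟨c r • (HomB_restr τR S hS r s), ?_⟩
                rw [map_smul]
                show c r • ev v (τ r s) = χ r (ev v s)
                exact heqR r v s)
              (by rw [Ne, LinearMap.range_eq_bot]; exact hv)
            have hI2 : Module.finrank k (LinearMap.range (res S v)) ≤ Module.finrank k S :=
              LinearMap.finrank_range_le _
            have htS : t ≤ Module.finrank k S := by
              rw [← hEt]; exact hI.trans hI2
            calc t ^ 2 * Module.finrank k (LinearMap.range (res S))
                = t * (Module.finrank k (LinearMap.range (res S)) * t) := by ring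
              _ ≤ t * (Module.finrank k (LinearMap.range (res S)) * Module.finrank k S) :=
                Nat.mul_le_mul_left _ (Nat.mul_le_mul_left _ htS)
              _ ≤ t * Module.finrank k X := Nat.mul_le_mul_left _ hW
              _ ≤ _ := Nat.mul_le_mul_right _ htS
          · push Not at h0
            have : LinearMap.range (res S) = ⊥ := by
              rw [LinearMap.range_eq_bot]
              ext v : 1
              exact h0 v
            rw [this, finrank_bot, mul_zero]
            exact Nat.zero_le _
        have hsub : Module.finrank k (LinearMap.range (res (U ⊔ S))) ≤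
            Module.finrank k (LinearMap.range (res U)) +
            Module.finrank k (LinearMap.range (res S)) := by
          have e1 := hrk (U ⊔ S)
          have e2 := hrk U
          have e3 := hrk S
          have e4 := Submodule.finrank_sup_add_finrank_inf_eq (LinearMap.ker (res U))
            (LinearMap.ker (res S))
          have e5 := Submodule.finrank_le (LinearMap.ker (res U) ⊔ LinearMap.ker (res S))
          rw [hker] at e1
          omega
        rw [hUS]
        calc t ^ 2 * Module.finrank k (LinearMap.range (res (U ⊔ S)))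
            ≤ t ^ 2 * (Module.finrank k (LinearMap.range (res U)) +
              Module.finrank k (LinearMap.range (res S))) := Nat.mul_le_mul_left _ hsub
          _ = t ^ 2 * Module.finrank k (LinearMap.range (res U)) +
              t ^ 2 * Module.finrank k (LinearMap.range (res S)) := by ring
          _ ≤ Module.finrank k U * Module.finrank k X +
              Module.finrank k S * Module.finrank k X := Nat.add_le_add hUt hSt
          _ = _ := by ring
  obtain ⟨U, _, hUt, hU⟩ := key (Module.finrank k Y)
  have hUtop : U = ⊤ := by
    rcases hU with h | h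
    · exact Submodule.eq_top_of_finrank_eq (le_antisymm (Submodule.finrank_le U) h)
    · exact h
  subst hUtop
  have hinj : LinearMap.ker (res ⊤) = ⊥ := by
    rw [LinearMap.ker_eq_bot']
    intro v hv
    apply hev
    rw [map_zero]
    ext y
    exact LinearMap.congr_fun hv ⟨y, trivial⟩
  have h1 := hrk ⊤
  rw [hinj, finrank_bot, add_zero] at h1
  rw [h1, finrank_top] at hUt
  calc Module.finrank k V * t ^ 2 = t ^ 2 * Module.finrank k V := mul_comm _ _
    _ ≤ _ := hUt
    _ ≤ B * B := Nat.mul_le_mul hYB hXB
    _ = B ^ 2 := (sq B).symm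

end Pool.Agent.W_bda8s_h78
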