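import Pool.Agent.W_bda8s_h78.Index
import Pool.Agent.W_bda8s_h78.Center
import Pool.Agent.W_bda8s_h78.HomB
import Pool.Agent.W_bda8f3_h78.CD

/-!
Nilpotent groups with all degrees at most `B` have an abelian subgroup of index at most `B ^ 4`.
-/

set_option autoImplicit false

namespace Pool.Agent.W_bda8s_h78

open Pool.Agent.H58_bda8f3 Pool.Agent.W_bda8f3_h78 MonoidAlgebra

variable {k : Type} [Field k]

lemma AbSub_aux [IsAlgClosed k] (n : ℕ) : ∀ (G : Type) [Group G] [Finite G],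
    Nat.card G = n → Group.IsNilpotent G → (Nat.card G : k) ≠ 0 →
    ∀ B : ℕ, (∀ d ∈ simpleDims k G, d ≤ B) →
    ∃ A : Subgroup G, IsMulCommutative A ∧ A.index ≤ B ^ 4 := by
  induction n using Nat.strong_induction_on with
  | _ n ih =>
  intro G _ _ hn hnil hG B hB
  by_cases hab : ∀ x y : G, x * y = y * x
  · refine ⟨⊤, ⟨⟨fun a b => Subtype.ext (hab _ _)⟩⟩, ?_⟩
    rw [Subgroup.index_top]
    exact Nat.one_le_pow _ _ (hB 1 one_mem_simpleDims)
  · obtain ⟨V, _, _, ρ, hρ, hc, hne⟩ := exists_class_two hnil hG hab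
    have hfd : FiniteDimensional k V := Irr.fd ρ hρ
    obtain ⟨t, ht, hmax⟩ := Set.exists_max_image (simpleDims k (scal ρ)) id simpleDims_finite
      ⟨1, one_mem_simpleDims⟩
    have hlt : Nat.card (scal ρ) < n := by
      rw [← hn]
      refine lt_of_le_of_ne (Subgroup.card_le_card_group _) fun h => hne ?_
      exact Subgroup.eq_top_of_card_eq _ h
    have hRk : (Nat.card (scal ρ) : k) ≠ 0 := by
      obtain ⟨m, hm⟩ := Subgroup.card_subgroup_dvd_card (scal ρ)
      intro h0
      apply hG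
      rw [hm, Nat.cast_mul, h0, zero_mul]
    have hRnil : Group.IsNilpotent (scal ρ) := inferInstance
    obtain ⟨A, hA, hAi⟩ := ih _ hlt (scal ρ) rfl hRnil hRk t (fun d hd => hmax d hd)
    refine ⟨A.map (scal ρ).subtype, ?_, ?_⟩
    · refine ⟨⟨?_⟩⟩
      rintro ⟨a, ha⟩ ⟨b, hb⟩
      obtain ⟨a', ha', rfl⟩ := Subgroup.mem_map.mp ha
      obtain ⟨b', hb', rfl⟩ := Subgroup.mem_map.mp hb
      have h := hA.is_comm.comm ⟨a', ha'⟩ ⟨b', hb'⟩
      have h1 : a' * b' = b' * a' := congrArg Subtype.val h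
      exact Subtype.ext (by
        show (scal ρ).subtype a' * (scal ρ).subtype b' = (scal ρ).subtype b' * (scal ρ).subtype a'
        rw [← map_mul, h1, map_mul])
    · rw [Subgroup.index_map_subtype]
      have h1 := index_scal_le ρ hρ hc
      have h2 := finrank_mul_sq_le hG B hB ρ hρ t ht
      calc A.index * (scal ρ).index ≤ t ^ 4 * Module.finrank k V ^ 2 := Nat.mul_le_mul hAi h1
        _ = (Module.finrank k V * t ^ 2) ^ 2 := by ring
        _ ≤ (B ^ 2) ^ 2 := Nat.pow_le_pow_left h2 2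
        _ = B ^ 4 := by ring

/-- Strong induction on `Nat.card G`. If `G` is abelian take `A = ⊤`. Otherwise let `ρ` be as in
`exists_class_two`, `R = scal ρ`, `t` the largest element of `simpleDims k R` (finite, contains `1`,
`simpleDims_finite`, `one_mem_simpleDims` of `H58_bda8f3/Final.lean`). By induction `R` has an
abelian subgroup of index at most `t ^ 4`; and
`t ^ 4 * R.index ≤ t ^ 4 * (finrank V) ^ 2 ≤ B ^ 4` by `index_scal_le` and `finrank_mul_sq_le`. -/
theorem exists_abelian_index_le [IsAlgClosed k] (G : Type) [Group G] [Finite G]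
    (hnil : Group.IsNilpotent G) (hG : (Nat.card G : k) ≠ 0) (B : ℕ)
    (hB : ∀ d ∈ simpleDims k G, d ≤ B) :
    ∃ A : Subgroup G, IsMulCommutative A ∧ A.index ≤ B ^ 4 := by
  exact AbSub_aux (k := k) (Nat.card G) G rfl hnil hG B hB

/-- With `chermak_delgado`. -/
theorem exists_char_abelian [IsAlgClosed k] (G : Type) [Group G] [Finite G]
    (hnil : Group.IsNilpotent G) (hG : (Nat.card G : k) ≠ 0) (B : ℕ)
    (hB : ∀ d ∈ simpleDims k G, d ≤ B) :
    ∃ M : Subgroup G, M.Characteristic ∧ IsMulCommutative M ∧ M.index ≤ B ^ 8 := by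
  obtain ⟨A, hA, hi⟩ := exists_abelian_index_le G hnil hG B hB
  obtain ⟨M, hM1, hM2, hM3⟩ := chermak_delgado A hA
  refine ⟨M, hM1, hM2, hM3.trans ((Nat.pow_le_pow_left hi 2).trans (le_of_eq ?_))⟩
  ring

end Pool.Agent.W_bda8s_h78
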