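import Pool.Agent.W_bda8s_h78.Defs

/-!
Translation between simple modules over the group algebra and irreducible representations in the
sense of `Irr`.
-/

set_option autoImplicit false

namespace Pool.Agent.W_bda8s_h78

open Pool.Agent.H58_bda8f3 Pool.Agent.W_bda8f3_h78 MonoidAlgebra

variable {k G : Type} [Field k] [Group G]

/-- The representation `g ↦ (v ↦ of g • v)` of a simple module is irreducible (cf. the
representation `φ` in the proof of `exists_simple_quot` in `W_bda8f3_h78/QuotA.lean`; a stable
subspace is a submodule by `MonoidAlgebra.submoduleOfSMulMem`). -/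
theorem irr_of_simple (V : Type) [AddCommGroup V] [Module k V] [Module (MonoidAlgebra k G) V]
    [IsScalarTower k (MonoidAlgebra k G) V] (hV : IsSimpleModule (MonoidAlgebra k G) V) :
    ∃ ρ : Representation k G V, Irr ρ ∧ ∀ (g : G) (v : V), ρ g v = of k G g • v := by
  let φ : Representation k G V :=
    { toFun := fun g => act k V g
      map_one' := act_one k
      map_mul' := act_mul k }
  have hφ : ∀ (g : G) (v : V), φ g v = of k G g • v := fun g v => rfl
  refine ⟨φ, ⟨IsSimpleModule.nontrivial (MonoidAlgebra k G) V, ?_⟩, hφ⟩
  intro U hU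
  have hsim := hV
  rw [isSimpleModule_iff] at hsim
  let Z : Submodule (MonoidAlgebra k G) V := MonoidAlgebra.submoduleOfSMulMem U (by
    intro a v hv
    have := hU a v hv
    rw [hφ] at this
    exact this)
  have hZ : ∀ v : V, v ∈ Z ↔ v ∈ U := fun v => Iff.rfl
  rcases hsim.eq_bot_or_eq_top Z with h1 | h1
  · left
    rw [eq_bot_iff]
    intro v hv
    have h2 : v ∈ Z := (hZ v).2 hv
    rw [h1, Submodule.mem_bot] at h2
    rw [h2]
    exact Submodule.zero_mem _
  · right
    rw [eq_top_iff]
    intro v _
    have h2 : v ∈ Z := by rw [h1]; trivial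
    exact (hZ v).1 h2

/-- the group acts on the module of a representation by the representation -/
theorem Bridge_act {V : Type} [AddCommGroup V] [Module k V] (ρ : Representation k G V) (g : G)
    (v : V) : of k G g • (ρ.asModuleEquiv.symm v) = ρ.asModuleEquiv.symm (ρ g v) :=
  (Representation.asModuleEquiv_symm_map_rho ρ g v).symm

/-- The module of an irreducible representation is simple. -/
theorem simple_of_irr {V : Type} [AddCommGroup V] [Module k V] (ρ : Representation k G V)
    (hρ : Irr ρ) : IsSimpleModule (MonoidAlgebra k G) ρ.asModule := by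
  obtain ⟨hnt, hU⟩ := hρ
  rw [isSimpleModule_iff]
  have hnt2 : Nontrivial ρ.asModule := ρ.asModuleEquiv.symm.injective.nontrivial
  exact
    { toNontrivial := inferInstance
      eq_bot_or_eq_top := fun Y => by
        let W0 : Submodule k V := (Y.restrictScalars k).comap ρ.asModuleEquiv.symm.toLinearMap
        have hW0 : ∀ v : V, v ∈ W0 ↔ ρ.asModuleEquiv.symm v ∈ Y := fun v => Iff.rfl
        have hst : Stable ρ W0 := by
          intro g v hv
          rw [hW0] at hv ⊢
          rw [← Bridge_act]
          exact Y.smul_mem _ hv
        rcases hU W0 hst with h1 | h1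
        · left
          rw [eq_bot_iff]
          intro y hy
          obtain ⟨v, rfl⟩ := ρ.asModuleEquiv.symm.surjective y
          have h2 : v ∈ W0 := (hW0 v).2 hy
          rw [h1, Submodule.mem_bot] at h2
          rw [h2, map_zero]
          exact Submodule.zero_mem _
        · right
          rw [eq_top_iff]
          intro y _
          obtain ⟨v, rfl⟩ := ρ.asModuleEquiv.symm.surjective y
          have h2 : v ∈ W0 := by rw [h1]; trivial
          exact (hW0 v).1 h2 }

/-- The degrees of the irreducible representations are the dimensions of the simple modules. -/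
theorem mem_simpleDims_iff (d : ℕ) : d ∈ simpleDims k G ↔
    ∃ (V : Type) (_ : AddCommGroup V) (_ : Module k V) (ρ : Representation k G V),
      Irr ρ ∧ Module.finrank k V = d := by
  constructor
  · rintro ⟨M, _, _, _, _, hM, hd⟩
    obtain ⟨ρ, hρ, -⟩ := irr_of_simple M hM
    exact ⟨M, inferInstance, inferInstance, ρ, hρ, hd⟩
  · rintro ⟨V, _, _, ρ, hρ, hd⟩
    refine ⟨ρ.asModule, inferInstance, inferInstance, inferInstance, inferInstance,
      simple_of_irr ρ hρ, ?_⟩
    rw [ρ.asModuleEquiv.finrank_eq]
    exact hd

/-- `kerDim k G x` is the common kernel of the irreducible representations of degree at most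
`x`. -/
theorem mem_kerDim_iff (x : ℕ) (g : G) : g ∈ kerDim k G x ↔
    ∀ (V : Type) [AddCommGroup V] [Module k V] (ρ : Representation k G V), Irr ρ →
      Module.finrank k V ≤ x → ρ g = 1 := by
  constructor
  · intro hg V _ _ ρ hρ hx
    apply LinearMap.ext
    intro v
    have h1 := hg ρ.asModule (simple_of_irr ρ hρ) (by
      rw [ρ.asModuleEquiv.finrank_eq]
      exact hx) (ρ.asModuleEquiv.symm v)
    rw [Bridge_act] at h1
    exact ρ.asModuleEquiv.symm.injective h1
  · intro h V _ _ _ _ hV hx v
    obtain ⟨ρ, hρ, hρ2⟩ := irr_of_simple V hV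
    rw [← hρ2, h V ρ hρ hx]
    rfl

/-- Irreducible representations of finite groups are finite dimensional (`simple_fd` in
`H58_bda8f3/Main.lean`). -/
theorem Irr.fd [Finite G] {V : Type} [AddCommGroup V] [Module k V] (ρ : Representation k G V)
    (hρ : Irr ρ) : FiniteDimensional k V := by
  have h1 := (simple_fd (k := k) (G := G) ρ.asModule (simple_of_irr ρ hρ)).1
  exact Module.Finite.equiv ρ.asModuleEquiv

end Pool.Agent.W_bda8s_h78
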