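import Mathlib

/-!
The combinatorics of clusters of degrees.
-/

set_option autoImplicit false

namespace Pool.Agent.W_bda8s_h78

/-- The scale of a number `d ≥ 2`: the `s` with `2 ^ (2 ^ s) ≤ d < 2 ^ (2 ^ (s + 1))`. -/
def scale (d : ℕ) : ℕ := Nat.log 2 (Nat.log 2 d)

/-- `2 ^ (2 ^ scale d) ≤ d` -/
theorem scale_le (d : ℕ) (hd : 2 ≤ d) : 2 ^ (2 ^ scale d) ≤ d := by
  have h1 : Nat.log 2 d ≠ 0 := by
    have := Nat.log_pos (b := 2) (by norm_num) hd
    omega
  have h2 : 2 ^ Nat.log 2 (Nat.log 2 d) ≤ Nat.log 2 d := Nat.pow_log_le_self 2 h1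
  exact (Nat.pow_le_pow_right (by norm_num) h2).trans (Nat.pow_log_le_self 2 (by omega))

/-- `d < 2 ^ (2 ^ (scale d + 1))` -/
theorem lt_scale (d : ℕ) : d < 2 ^ (2 ^ (scale d + 1)) := by
  have h1 : d < 2 ^ (Nat.log 2 d + 1) := Nat.lt_pow_succ_log_self (by norm_num) d
  have h2 : Nat.log 2 d < 2 ^ (Nat.log 2 (Nat.log 2 d) + 1) :=
    Nat.lt_pow_succ_log_self (by norm_num) _
  exact h1.trans_le (Nat.pow_le_pow_right (by norm_num) h2)

theorem Cluster_mono {x y : ℕ} (h : x ≤ y) : scale x ≤ scale y :=
  Nat.log_mono_right (Nat.log_mono_right h)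

theorem Cluster_lt {y s : ℕ} (hy : 2 ≤ y) (h : y < 2 ^ (2 ^ s)) : scale y < s := by
  have h1 := (scale_le y hy).trans_lt h
  have h2 := (Nat.pow_lt_pow_iff_right (a := 2) (by norm_num)).1 h1
  exact (Nat.pow_lt_pow_iff_right (a := 2) (by norm_num)).1 h2

theorem Cluster_four {x y : ℕ} (hy : 2 ≤ y) (h : y < x ^ 16) : scale y ≤ scale x + 4 := by
  have h1 : x ^ 16 ≤ (2 ^ (2 ^ (scale x + 1))) ^ 16 := Nat.pow_le_pow_left (lt_scale x).le 16
  have h2 : (2 ^ (2 ^ (scale x + 1))) ^ 16 = 2 ^ (2 ^ (scale x + 5)) := by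
    rw [← pow_mul]
    congr 1
    rw [show scale x + 5 = scale x + 1 + 4 from rfl, pow_add 2 (scale x + 1) 4]
    norm_num
  rw [h2] at h1
  have := Cluster_lt hy (h.trans_le h1)
  omega

theorem Cluster_gap {a f : ℕ} (ha : 2 ≤ a) (h : a ^ 16 ≤ f) : scale a < scale f := by
  have h1 : (2 ^ (2 ^ scale a)) ^ 16 ≤ a ^ 16 := Nat.pow_le_pow_left (scale_le a ha) 16
  have h2 : (2 ^ (2 ^ scale a)) ^ 16 = 2 ^ (2 ^ (scale a + 4)) := by
    rw [← pow_mul]
    congr 1
    rw [pow_add 2 (scale a) 4]
    norm_num
  rw [h2] at h1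
  have h3 := (h1.trans h).trans_lt (lt_scale f)
  have h4 := (Nat.pow_lt_pow_iff_right (a := 2) (by norm_num)).1 h3
  have h5 := (Nat.pow_lt_pow_iff_right (a := 2) (by norm_num)).1 h4
  omega

/-- the number of scales in a cluster -/
theorem Cluster_count (S : Finset ℕ) (f l : ℕ) (hf2 : 2 ≤ f) (hl : l ∈ S)
    (hnext : ∀ x ∈ S, f ≤ x → x < l → ∃ y ∈ S, x < y ∧ y ≤ l ∧ y < x ^ 16) (n : ℕ) :
    ∀ x ∈ S, f ≤ x → x ≤ l → l - x ≤ n →
      scale l + 4 ≤ scale x + 4 * ((S.filter fun d => x ≤ d ∧ d ≤ l).image scale).card := by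
  induction n with
  | zero =>
    intro x hx hfx hxl hn
    have hxl' : x = l := by omega
    subst hxl'
    have h1 : 0 < ((S.filter fun d => x ≤ d ∧ d ≤ x).image scale).card :=
      Finset.card_pos.2 ⟨scale x, Finset.mem_image_of_mem _ (by simp [hx])⟩
    omega
  | succ n ih =>
    intro x hx hfx hxl hn
    rcases eq_or_lt_of_le hxl with hxl' | hxl'
    · subst hxl'
      have h1 : 0 < ((S.filter fun d => x ≤ d ∧ d ≤ x).image scale).card :=
        Finset.card_pos.2 ⟨scale x, Finset.mem_image_of_mem _ (by simp [hx])⟩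
      omega
    · obtain ⟨y, hy, hxy, hyl, hy16⟩ := hnext x hx hfx hxl'
      have h1 := ih y hy (by omega) hyl (by omega)
      have hsub : (S.filter fun d => y ≤ d ∧ d ≤ l).image scale ⊆
          (S.filter fun d => x ≤ d ∧ d ≤ l).image scale := by
        refine Finset.image_subset_image fun d hd => ?_
        rw [Finset.mem_filter] at hd ⊢
        exact ⟨hd.1, by omega, hd.2.2⟩
      have hcard := Finset.card_le_card hsub
      rcases eq_or_lt_of_le (Cluster_mono hxy.le) with h2 | h2
      · rw [h2]
        omega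
      · have h3 := Cluster_four (x := x) (y := y) (by omega) hy16
        have hnot : scale x ∉ (S.filter fun d => y ≤ d ∧ d ≤ l).image scale := by
          intro hmem
          obtain ⟨d, hd, hdx⟩ := Finset.mem_image.1 hmem
          rw [Finset.mem_filter] at hd
          have := Cluster_mono hd.2.1
          omega
        have hin : scale x ∈ (S.filter fun d => x ≤ d ∧ d ≤ l).image scale :=
          Finset.mem_image_of_mem _ (by simp [hx, hxl])
        have hlt : ((S.filter fun d => y ≤ d ∧ d ≤ l).image scale).card <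
            ((S.filter fun d => x ≤ d ∧ d ≤ l).image scale).card :=
          Finset.card_lt_card ⟨hsub, fun h => hnot (h hin)⟩
        omega

/-- Let `Φ a d` be a property (in the application: `derivedSeries G d ≤ kerDim k G a`) with the
start `Φ 1 1` and the step `hstep`. Then `Φ` holds for the largest element of `S` and
`7 * σ + 1`, where `σ` is the number of scales of the elements `≥ 2` of `S`.
Call `a ∈ S` a break if `a ^ 16 ≤ x` for all `x ∈ S` with `a < x`; `1` and the maximum are
breaks. Show by strong induction for all breaks `l`: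
`Φ l (7 * σ l + 1)`, `σ l` the number of scales of the elements of `S` in `[2, l]`. For `l = 1` this
is the start. For a break `l > 1` let `a` be the largest break `< l`, `f` the smallest element of
`S` with `a < f`; so `f ≤ l`, `a ^ 16 ≤ f`. If `x ∈ S`, `f ≤ x < l`, then `x` is not a break, so
the next element `y` of `S` satisfies `y < x ^ 16`, so `scale y ≤ scale x + 4`. Therefore
`scale l ≤ scale f + 4 * (τ - 1)`, where `τ ≥ 1` is the number of scales of elements of `S` in
`[f, l]` (for instance: all the `4`-blocks of scales between `scale f` and `scale l` contain a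
scale of an element of `S`). If `a ≥ 2` the scales of the elements of `S` in `[2, a]` are smaller
than `scale f`, because `a ^ 16 ≤ f`; so `σ l = σ a + τ`. With `s = scale f`,
`r = scale l - scale f ≤ 4 * (τ - 1)` and `d = 7 * σ a + 1` the step gives
`Φ l (7 * σ a + 1 + r + 7)`, and `r + 7 ≤ 7 * τ`; use `hmono`. -/
theorem cluster (S : Finset ℕ) (h1 : 1 ∈ S) (h0 : 0 ∉ S) (Φ : ℕ → ℕ → Prop)
    (hstart : Φ 1 1) (hmono : ∀ a d d', Φ a d → d ≤ d' → Φ a d')
    (hstep : ∀ a f l s r d, a ∈ S → f ∈ S → l ∈ S → a < f → f ≤ l →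
      (∀ x ∈ S, x ≤ a ∨ f ≤ x) → a ^ 16 ≤ f → (∀ x ∈ S, l < x → l ^ 16 ≤ x) →
      2 ^ (2 ^ s) ≤ f → l < 2 ^ (2 ^ (s + r + 1)) → Φ a d → Φ l (d + r + 7))
    (l : ℕ) (hl : l ∈ S) (hmax : ∀ x ∈ S, x ≤ l) :
    Φ l (7 * ((S.filter fun d => 2 ≤ d).image scale).card + 1) := by
  have key : ∀ n, ∀ l ∈ S, l ≤ n → (∀ x ∈ S, l < x → l ^ 16 ≤ x) →
      Φ l (7 * ((S.filter fun d => 2 ≤ d ∧ d ≤ l).image scale).card + 1) := by
    intro n
    induction n with
    | zero =>
      intro l hl hln _
      exact absurd (by omega : l = 0) (fun h => h0 (h ▸ hl))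
    | succ n ih =>
      intro l hl hln hbr
      have hl0 : l ≠ 0 := fun h => h0 (h ▸ hl)
      by_cases hl1 : l = 1
      · subst hl1
        exact hmono 1 1 _ hstart (by omega)
      · set B : Finset ℕ := S.filter (fun a => a < l ∧ ∀ x ∈ S, a < x → a ^ 16 ≤ x) with hB
        have hBne : B.Nonempty := ⟨1, by
          rw [hB, Finset.mem_filter]
          exact ⟨h1, by omega, fun x _ hx => by rw [one_pow]; omega⟩⟩
        have ha := B.max'_mem hBne
        set a : ℕ := B.max' hBne with hadef
        rw [hB, Finset.mem_filter] at ha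
        obtain ⟨haS, hal, habr⟩ := ha
        have ha0 : a ≠ 0 := fun h => h0 (h ▸ haS)
        set F : Finset ℕ := S.filter (fun x => a < x) with hF
        have hFne : F.Nonempty := ⟨l, by rw [hF, Finset.mem_filter]; exact ⟨hl, hal⟩⟩
        have hf := F.min'_mem hFne
        set f : ℕ := F.min' hFne with hfdef
        rw [hF, Finset.mem_filter] at hf
        obtain ⟨hfS, haf⟩ := hf
        have hfmin : ∀ x ∈ S, a < x → f ≤ x := fun x hx hax =>
          Finset.min'_le F x (by rw [hF, Finset.mem_filter]; exact ⟨hx, hax⟩)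
        have hfl : f ≤ l := hfmin l hl hal
        have ha16 : a ^ 16 ≤ f := habr f hfS haf
        have hnext : ∀ x ∈ S, f ≤ x → x < l → ∃ y ∈ S, x < y ∧ y ≤ l ∧ y < x ^ 16 := by
          intro x hx hfx hxl
          have hnb : ¬ ∀ y ∈ S, x < y → x ^ 16 ≤ y := by
            intro hbx
            have : x ≤ a := Finset.le_max' B x (by
              rw [hB, Finset.mem_filter]
              exact ⟨hx, hxl, hbx⟩)
            omega
          push Not at hnb
          obtain ⟨y, hy, hxy, hy16⟩ := hnb
          by_cases hyl : y ≤ l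
          · exact ⟨y, hy, hxy, hyl, hy16⟩
          · exact ⟨l, hl, hxl, le_rfl, by omega⟩
        have hcount := Cluster_count S f l (by omega) hl hnext (l - f) f hfS le_rfl hfl le_rfl
        have hsc : scale f ≤ scale l := Cluster_mono hfl
        have hst := hstep a f l (scale f) (scale l - scale f)
          (7 * ((S.filter fun d => 2 ≤ d ∧ d ≤ a).image scale).card + 1) haS hfS hl haf hfl
          (fun x hx => by
            by_cases hxa : x ≤ a
            · exact Or.inl hxa
            · exact Or.inr (hfmin x hx (by omega))) ha16 hbr (scale_le f (by omega)) (by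
            rw [Nat.add_sub_cancel' hsc]
            exact lt_scale l) (ih a haS (by omega) habr)
        refine hmono l _ _ hst ?_
        have hdisj : Disjoint ((S.filter fun d => 2 ≤ d ∧ d ≤ a).image scale)
            ((S.filter fun d => f ≤ d ∧ d ≤ l).image scale) := by
          rw [Finset.disjoint_left]
          intro z hz hz'
          obtain ⟨d, hd, hdz⟩ := Finset.mem_image.1 hz
          obtain ⟨e, he, hez⟩ := Finset.mem_image.1 hz'
          rw [Finset.mem_filter] at hd he
          have h3 : scale d ≤ scale a := Cluster_mono hd.2.2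
          have h4 : scale f ≤ scale e := Cluster_mono he.2.1
          have h5 : scale a < scale f := Cluster_gap (by omega) ha16
          omega
        have hsub : (S.filter fun d => 2 ≤ d ∧ d ≤ a).image scale ∪
            (S.filter fun d => f ≤ d ∧ d ≤ l).image scale ⊆
            (S.filter fun d => 2 ≤ d ∧ d ≤ l).image scale := by
          rw [← Finset.image_union]
          refine Finset.image_subset_image fun d hd => ?_
          rw [Finset.mem_union, Finset.mem_filter, Finset.mem_filter] at hd
          rw [Finset.mem_filter]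
          rcases hd with hd | hd
          · exact ⟨hd.1, hd.2.1, by omega⟩
          · exact ⟨hd.1, by omega, hd.2.2⟩
        have hcard := Finset.card_le_card hsub
        rw [Finset.card_union_of_disjoint hdisj] at hcard
        omega
  have h2 := key l l hl le_rfl (fun x hx hlx => absurd (hmax x hx) (by omega))
  have h3 : (S.filter fun d => 2 ≤ d ∧ d ≤ l) = S.filter fun d => 2 ≤ d := by
    refine Finset.filter_congr fun d hd => ?_
    exact ⟨fun h => h.1, fun h => ⟨h, hmax d hd⟩⟩
  rwa [h3] at h2

end Pool.Agent.W_bda8s_h78
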