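import Pool.Agent.W_bda8f3_h78.QuotA
import Pool.Agent.W_bda8f3_h78.GoodB

/-!
Definitions for the scale theorem: irreducible representations in the language of stable
subspaces, degrees, scales.
-/

set_option autoImplicit false

namespace Pool.Agent.W_bda8s_h78

open Pool.Agent.H58_bda8f3 MonoidAlgebra

variable {k G V : Type} [Field k] [Group G] [AddCommGroup V] [Module k V]

/-- The subspace `U` is stable under the representation `ρ`. -/
def Stable (ρ : Representation k G V) (U : Submodule k V) : Prop :=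
  ∀ g : G, ∀ u ∈ U, ρ g u ∈ U

/-- `ρ` is irreducible. -/
def Irr (ρ : Representation k G V) : Prop :=
  Nontrivial V ∧ ∀ U : Submodule k V, Stable ρ U → U = ⊥ ∨ U = ⊤

/-- The subgroup of the elements that commute, in the representation `ρ`, with everything. For
irreducible `ρ` over an algebraically closed field these are the elements that act as scalars. -/
def scal (ρ : Representation k G V) : Subgroup G where
  carrier := {g | ∀ h : G, ρ g * ρ h = ρ h * ρ g}
  one_mem' := by
    intro h
    rw [map_one, one_mul, mul_one]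
  mul_mem' := by
    intro a b ha hb h
    rw [map_mul, mul_assoc, hb h, ← mul_assoc, ha h, mul_assoc]
  inv_mem' := by
    intro a ha h
    have h1 : ρ a⁻¹ * ρ a = 1 := by rw [← map_mul, inv_mul_cancel, map_one]
    have h2 : ρ a * ρ a⁻¹ = 1 := by rw [← map_mul, mul_inv_cancel, map_one]
    calc ρ a⁻¹ * ρ h = ρ a⁻¹ * ρ h * (ρ a * ρ a⁻¹) := by rw [h2, mul_one]
      _ = ρ a⁻¹ * (ρ h * ρ a) * ρ a⁻¹ := by simp only [mul_assoc]
      _ = ρ a⁻¹ * (ρ a * ρ h) * ρ a⁻¹ := by rw [ha h]
      _ = ρ a⁻¹ * ρ a * ρ h * ρ a⁻¹ := by simp only [mul_assoc]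
      _ = ρ h * ρ a⁻¹ := by rw [h1, one_mul]

instance scal_normal (ρ : Representation k G V) : (scal ρ).Normal where
  conj_mem := by
    intro n hn g h
    have h1 : ρ g * ρ g⁻¹ = 1 := by rw [← map_mul, mul_inv_cancel, map_one]
    have h2 : ρ (g * n * g⁻¹) = ρ n := by
      rw [map_mul, map_mul, ← hn g, mul_assoc, h1, mul_one]
    rw [h2]
    exact hn h

end Pool.Agent.W_bda8s_h78
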