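import Pool.Agent.W_bda8s_h78.Bridge

/-!
If the characteristic does not divide the group order, the irreducible representations are
together faithful.
-/

set_option autoImplicit false

namespace Pool.Agent.W_bda8s_h78

open Pool.Agent.H58_bda8f3 Pool.Agent.W_bda8f3_h78 MonoidAlgebra

variable {k G : Type} [Field k] [Group G]

theorem Faith_fd [Finite G] : FiniteDimensional k (MonoidAlgebra k G) := by
  infer_instance

/-- Every element `g ≠ 1` acts nontrivially in some irreducible representation. The subgroup of the
elements that act trivially on all simple modules acts trivially on the group algebra by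
`triv_of_finrank_lt` of `H58_bda8f3/Basic.lean` (its elements have order prime to the
characteristic by `hG`), so it is trivial. Translate with `Bridge.lean`. -/
theorem exists_irr_ne_one [Finite G] (hG : (Nat.card G : k) ≠ 0) (g : G) (hg : g ≠ 1) :
    ∃ (V : Type) (_ : AddCommGroup V) (_ : Module k V) (ρ : Representation k G V), Irr ρ ∧
      ρ g ≠ 1 := by
  by_contra hcon
  push Not at hcon
  have hH : ∀ h ∈ Subgroup.zpowers g, ∃ n : ℕ, (n : k) ≠ 0 ∧ h ^ n = 1 :=
    fun h _ => ⟨Nat.card G, hG, pow_card_eq_one'⟩
  have hs : SimpleTriv k (Subgroup.zpowers g) (Module.finrank k (MonoidAlgebra k G) + 1) := by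
    intro X _ _ _ _ hX _ h hh x
    obtain ⟨ρ, hρ, hact⟩ := irr_of_simple X hX
    have h1 : ρ g = 1 := hcon X _ _ ρ hρ
    have h2 : Subgroup.zpowers g ≤ MonoidHom.ker ρ :=
      (Subgroup.zpowers_le).2 ((MonoidHom.mem_ker).2 h1)
    have h3 : ρ h = 1 := (MonoidHom.mem_ker).1 (h2 hh)
    rw [← hact, h3]
    rfl
  have hfd : FiniteDimensional k (MonoidAlgebra k G) := Faith_fd
  have h4 := triv_of_finrank_lt (Subgroup.zpowers g) hH _ hs _ (MonoidAlgebra k G) le_rfl
    (Nat.lt_succ_self _) g (Subgroup.mem_zpowers g) 1
  rw [smul_eq_mul, mul_one] at h4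
  exact hg (of_injective (R := k) (M := G) (h4.trans (map_one (of k G)).symm))

end Pool.Agent.W_bda8s_h78
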