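import Pool.Agent.W_bda8s_h78.AbSub
import Pool.Agent.W_bda8f3_h78.FinB
import Pool.Agent.W_bda8f3_h78.FinC

/-!
The logarithmic bound for nilpotent normal subgroups in terms of the number of degrees, with the
abelian subgroup of polynomial index.
-/

set_option autoImplicit false

namespace Pool.Agent.W_bda8s_h78

open Pool.Agent.H58_bda8f3 Pool.Agent.W_bda8f3_h78 MonoidAlgebra

variable {k G : Type} [Field k] [Group G]

/-- A nilpotent group with all degrees at most `2 ^ β` has derived length at most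
`log₂ (β + 1) + 5`. -/
theorem nil_derived [IsAlgClosed k] [Finite G] (hnil : Group.IsNilpotent G)
    (hG : (Nat.card G : k) ≠ 0) (β : ℕ) (hβ : ∀ d ∈ simpleDims k G, d ≤ 2 ^ β) :
    derivedSeries G (Nat.log 2 (β + 1) + 5) = ⊥ := by
  obtain ⟨M, hM1, hM2, hM3⟩ := exists_char_abelian G hnil hG (2 ^ β) hβ
  have hMn : M.Normal := inferInstance
  have hlog : β + 1 < 2 ^ (Nat.log 2 (β + 1) + 1) := Nat.lt_pow_succ_log_self (by norm_num) _
  have hc : β * 8 < 2 ^ (Nat.log 2 (β + 1) + 4) := by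
    have e : 2 ^ (Nat.log 2 (β + 1) + 4) = 8 * 2 ^ (Nat.log 2 (β + 1) + 1) := by ring
    rw [e]
    omega
  have hq : derivedSeries (G ⧸ M) (Nat.log 2 (β + 1) + 4) = ⊥ :=
    derivedSeries_eq_bot_of_card inferInstance
      (by rw [← Subgroup.index_eq_card, pow_mul]; exact hM3) hc
  have hle : derivedSeries G (Nat.log 2 (β + 1) + 4) ≤ M := by
    have h1 := map_derivedSeries_le_derivedSeries (QuotientGroup.mk' M) (Nat.log 2 (β + 1) + 4)
    rw [hq, le_bot_iff, Subgroup.map_eq_bot_iff, QuotientGroup.ker_mk'] at h1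
    exact h1
  rw [show Nat.log 2 (β + 1) + 5 = (Nat.log 2 (β + 1) + 4) + 1 from rfl,
    derivedSeries_succ, eq_bot_iff]
  refine (Subgroup.commutator_mono hle hle).trans ?_
  rw [le_bot_iff, Subgroup.commutator_eq_bot_iff_le_centralizer]
  exact Subgroup.le_centralizer_iff_isMulCommutative.2 hM2

theorem D_le_kerDim_five [Finite G] [IsAlgClosed k] (N : Subgroup G) [N.Normal]
    (hnil : Group.IsNilpotent N) (hN : (Nat.card N : k) ≠ 0) (s : ℕ) :
    D N (Nat.log 2 (s * ((simpleDims k G).ncard - 1) + 1) + 5) ≤ kerDim k G (2 ^ s) := by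
  obtain ⟨β, hβ, hgood⟩ := quot_good (k := k) (G := G) s
  set f := QuotientGroup.mk' (kerDim k G (2 ^ s)) with hf
  have hdeg : ∀ d ∈ simpleDims k (G ⧸ kerDim k G (2 ^ s)), d ≤ 2 ^ β := by
    rintro d ⟨X, i1, i2, i3, i4, hX, rfl⟩
    exact finrank_simple_le hgood X hX
  have hdeg' := simpleDims_subgroup_le (N.map f) (2 ^ β) hdeg
  have hsurj : Function.Surjective (f.subgroupMap N) := f.subgroupMap_surjective N
  have hnil' : Group.IsNilpotent (N.map f) := Group.nilpotent_of_surjective _ hsurj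
  have hcard : (Nat.card (N.map f) : k) ≠ 0 := by
    intro h0
    apply hN
    obtain ⟨c, hc⟩ := Subgroup.card_dvd_of_surjective (f.subgroupMap N) hsurj
    rw [hc, Nat.cast_mul, h0, zero_mul]
  have h1 := nil_derived (k := k) hnil' hcard β hdeg'
  have h2 : D (N.map f) (Nat.log 2 (β + 1) + 5) = ⊥ := by
    rw [← D_map, h1, Subgroup.map_bot]
  rw [← FinB_map_D] at h2
  have h3 : D N (Nat.log 2 (β + 1) + 5) ≤ kerDim k G (2 ^ s) := by
    have h4 := (Subgroup.map_eq_bot_iff _).1 h2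
    rw [hf, QuotientGroup.ker_mk'] at h4
    exact h4
  refine le_trans (D_antitone N ?_) h3
  have h5 : Nat.log 2 (β + 1) ≤ Nat.log 2 (s * ((simpleDims k G).ncard - 1) + 1) :=
    Nat.log_mono_right (by omega)
  omega

/-- **Few degrees.** -/
theorem few_degrees (p : ℕ) [Fact p.Prime] (G : Type) [Group G] [Finite G] (k : Type) [Field k]
    [IsAlgClosed k] [CharP k p] (O : Subgroup G) [O.Normal] (hO : IsPGroup p O)
    (hOmax : ∀ Q : Subgroup G, Q.Normal → IsPGroup p Q → Q ≤ O) (N : Subgroup (G ⧸ O))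
    [N.Normal] (hnil : Group.IsNilpotent N) (s : ℕ) :
    derivedSeries N (2 * (simpleDims k G ∩ Set.Ioi (2 ^ s)).ncard +
      Nat.log 2 (s * ((simpleDims k G).ncard - 1) + 1) + 5) = ⊥ := by
  have hq : (simpleDims k (G ⧸ O)).ncard ≤ (simpleDims k G).ncard :=
    Set.ncard_le_ncard (simpleDims_quotient (k := k) O) simpleDims_finite
  have hmono : s * ((simpleDims k (G ⧸ O)).ncard - 1) + 1 ≤
      s * ((simpleDims k G).ncard - 1) + 1 :=
    Nat.add_le_add_right (Nat.mul_le_mul_left _ (Nat.sub_le_sub_right hq 1)) 1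
  have hO' : ∀ Q : Subgroup (G ⧸ O), Q.Normal → IsPGroup p Q → Q = ⊥ := by
    intro Q hQ hQp
    have h1 := hOmax (Q.comap (QuotientGroup.mk' O)) inferInstance
      (hQp.comap_of_ker_isPGroup _ (by rw [QuotientGroup.ker_mk']; exact hO))
    rw [eq_bot_iff]
    intro q hq
    obtain ⟨g, rfl⟩ := QuotientGroup.mk'_surjective O q
    have h2 : g ∈ O := h1 hq
    rw [Subgroup.mem_bot]
    exact (QuotientGroup.eq_one_iff g).mpr h2
  have hN : (Nat.card N : k) ≠ 0 := by
    rw [Ne, CharP.cast_eq_zero_iff k p]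
    exact not_dvd_card (p := p) N hnil hO'
  have hlog : Nat.log 2 (s * ((simpleDims k (G ⧸ O)).ncard - 1) + 1) ≤
      Nat.log 2 (s * ((simpleDims k G).ncard - 1) + 1) := Nat.log_mono_right hmono
  have h1 := D_le_kerDim_five (k := k) N hnil hN s
  have h2 := D_eq_bot_of_le_kerDim (k := k) N hnil hN s _ h1
  have h3 : (simpleDims k (G ⧸ O) ∩ Set.Ioi (2 ^ s)).ncard ≤
      (simpleDims k G ∩ Set.Ioi (2 ^ s)).ncard :=
    Set.ncard_le_ncard (Set.inter_subset_inter_left _ (simpleDims_quotient (k := k) O))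
      (simpleDims_finite.inter_of_left _)
  have h4 : D N (2 * (simpleDims k G ∩ Set.Ioi (2 ^ s)).ncard +
      Nat.log 2 (s * ((simpleDims k G).ncard - 1) + 1) + 5) = ⊥ := by
    rw [eq_bot_iff, ← h2]
    exact D_antitone N (by omega)
  rw [← D_map, Subgroup.map_eq_bot_iff, Subgroup.ker_subtype, le_bot_iff] at h4
  exact h4

end Pool.Agent.W_bda8s_h78
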