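import Pool.Agent.W_bda8s_h78.StepH
import Pool.Agent.W_bda8s_h78.Cluster

/-!
The scale theorem.
-/

set_option autoImplicit false

namespace Pool.Agent.W_bda8s_h78

open Pool.Agent.H58_bda8f3 Pool.Agent.W_bda8f3_h78 MonoidAlgebra

variable {k : Type} [Field k]

theorem Final_pos {G : Type} [Group G] [Finite G] {d : ℕ} (hd : d ∈ simpleDims k G) : 1 ≤ d := by
  obtain ⟨M, _, _, _, _, hM, rfl⟩ := hd
  exact (simple_fd M hM).2.2

/-- The scale theorem: `cluster` for the finite set `simpleDims k G` (`simpleDims_finite`,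
`one_mem_simpleDims` of `H58_bda8f3/Final.lean`) and
`Φ a d := derivedSeries G d ≤ kerDim k G a`, with `commutator_le_kerDim_one` for the start,
`stepG` for the step (`l < x → l ^ 16 ≤ x` gives the hypothesis `hl`; `l ≥ 2`), and
`kerDim_eq_bot` at the end. -/
theorem scale_theorem [IsAlgClosed k] (G : Type) [Group G] [Finite G]
    (hnil : Group.IsNilpotent G) (hG : (Nat.card G : k) ≠ 0) :
    derivedSeries G (7 * {s | ∃ d ∈ simpleDims k G, 2 ≤ d ∧ scale d = s}.ncard + 1) = ⊥ := by
  classical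
  have hfin : (simpleDims k G).Finite := simpleDims_finite
  set S : Finset ℕ := hfin.toFinset with hS
  have hmem : ∀ x, x ∈ S ↔ x ∈ simpleDims k G := fun x => by
    rw [hS, Set.Finite.mem_toFinset]
  have h1 : 1 ∈ S := (hmem 1).2 one_mem_simpleDims
  have h0 : 0 ∉ S := fun h => by
    have := Final_pos ((hmem 0).1 h)
    omega
  have hl : S.max' ⟨1, h1⟩ ∈ S := Finset.max'_mem _ _
  have hmax : ∀ x ∈ S, x ≤ S.max' ⟨1, h1⟩ := fun x hx => Finset.le_max' _ _ hx
  have key := cluster S h1 h0 (fun a d => derivedSeries G d ≤ kerDim k G a) (by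
      show derivedSeries G 1 ≤ kerDim k G 1
      rw [show (1 : ℕ) = 0 + 1 from rfl, derivedSeries_succ, derivedSeries_zero]
      exact commutator_le_kerDim_one) (by
      intro a d d' h hdd
      exact (derivedSeries_antitone G hdd).trans h) (by
      intro a f l s r d ha hf hlS haf hfl hx ha16 hl16 hfs hls hd
      have ha1 : 1 ≤ a := Final_pos ((hmem a).1 ha)
      refine stepG G hnil hG a f l s r d ha1 (by omega) (fun e he hel => ?_)
        (fun e he => hx e ((hmem e).2 he)) ha16 hfs hls hd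
      by_contra hcon
      have h2 := hl16 e ((hmem e).2 he) (by omega)
      have h3 : l ^ 2 < l ^ 16 := Nat.pow_lt_pow_right (by omega) (by norm_num)
      have h4 : l * l = l ^ 2 := (sq l).symm
      omega) _ hl hmax
  have hbot : kerDim k G (S.max' ⟨1, h1⟩) = ⊥ :=
    kerDim_eq_bot hG _ fun d hd => hmax d ((hmem d).2 hd)
  have hcard : {s | ∃ d ∈ simpleDims k G, 2 ≤ d ∧ scale d = s}.ncard =
      ((S.filter fun d => 2 ≤ d).image scale).card := by
    rw [← Set.ncard_coe_finset]
    congr 1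
    ext s
    simp only [Set.mem_setOf_eq, Finset.coe_image, Finset.coe_filter, Set.mem_image, hmem]
    constructor
    · rintro ⟨d, h2, h3, h4⟩
      exact ⟨d, ⟨h2, h3⟩, h4⟩
    · rintro ⟨d, ⟨h2, h3⟩, h4⟩
      exact ⟨d, h2, h3, h4⟩
  rw [hcard, eq_bot_iff, ← hbot]
  exact key

end Pool.Agent.W_bda8s_h78
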