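import Pool.Agent.W_bda8s_h78.Schur

/-!
The index of the scalar subgroup is at most the square of the degree, if commutators act as
scalars.
-/

set_option autoImplicit false

namespace Pool.Agent.W_bda8s_h78

open Pool.Agent.H58_bda8f3 Pool.Agent.W_bda8f3_h78 MonoidAlgebra
open scoped commutatorElement

variable {k G : Type} [Field k] [Group G]

/-- The operator `ρ g` is a common eigenvector of the conjugations, with a multiplicative
eigenvalue function. -/
theorem Index_char [IsAlgClosed k] {V : Type} [AddCommGroup V] [Module k V]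
    [FiniteDimensional k V] (ρ : Representation k G V) (hρ : Irr ρ)
    (hc : ∀ g h : G, ⁅g, h⁆ ∈ scal ρ) (g : G) :
    ∃ χ : G →* k, ∀ h : G, ρ h * ρ g * ρ h⁻¹ = χ h • ρ g := by
  have hVn : Nontrivial V := hρ.1
  have hinv : ∀ g : G, ρ g * ρ g⁻¹ = 1 := fun g => by rw [← map_mul, mul_inv_cancel, map_one]
  have hne : ρ g ≠ 0 := by
    intro h
    have h1 := hinv g
    rw [h, zero_mul] at h1
    exact zero_ne_one h1
  have h2 : ∀ h : G, ∃ c : k, ρ h * ρ g * ρ h⁻¹ = c • ρ g := by
    intro h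
    obtain ⟨c, hc'⟩ := schur ρ hρ (ρ ⁅h, g⁆) (fun x => hc h g x)
    refine ⟨c, ?_⟩
    have h3 : ρ h * ρ g * ρ h⁻¹ = ρ ⁅h, g⁆ * ρ g := by
      rw [← map_mul, ← map_mul, ← map_mul]
      congr 1
      rw [commutatorElement_def]
      group
    rw [h3, hc', smul_mul_assoc, one_mul]
  choose c hc' using h2
  have huniq : ∀ a b : k, a • ρ g = b • ρ g → a = b := fun a b h => smul_left_injective k hne h
  refine ⟨{ toFun := c, map_one' := ?_, map_mul' := ?_ }, hc'⟩
  · apply huniq
    rw [← hc' 1, inv_one, map_one, one_mul, mul_one, one_smul]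
  · intro x y
    apply huniq
    rw [← hc' (x * y)]
    have h4 : ρ (x * y) * ρ g * ρ (x * y)⁻¹ = ρ x * (ρ y * ρ g * ρ y⁻¹) * ρ x⁻¹ := by
      rw [mul_inv_rev, map_mul, map_mul]
      simp only [mul_assoc]
    rw [h4, hc' y, mul_smul_comm, smul_mul_assoc, hc' x, smul_smul, mul_comm]

/-- Equal eigenvalue functions mean equal cosets. -/
theorem Index_inj [IsAlgClosed k] {V : Type} [AddCommGroup V] [Module k V]
    [FiniteDimensional k V] (ρ : Representation k G V) (hρ : Irr ρ) (g g' : G) (χ : G →* k)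
    (h1 : ∀ h : G, ρ h * ρ g * ρ h⁻¹ = χ h • ρ g)
    (h2 : ∀ h : G, ρ h * ρ g' * ρ h⁻¹ = χ h • ρ g') : g⁻¹ * g' ∈ scal ρ := by
  have hinv : ∀ g : G, ρ g * ρ g⁻¹ = 1 := fun g => by rw [← map_mul, mul_inv_cancel, map_one]
  have hinv' : ∀ g : G, ρ g⁻¹ * ρ g = 1 := fun g => by rw [← map_mul, inv_mul_cancel, map_one]
  have hχ : ∀ h : G, χ h ≠ 0 := by
    intro h h0
    have h3 : χ h * χ h⁻¹ = 1 := by rw [← map_mul, mul_inv_cancel, map_one]
    rw [h0, zero_mul] at h3
    exact zero_ne_one h3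
  have h3 : ∀ (a : G) (_ : ∀ h : G, ρ h * ρ a * ρ h⁻¹ = χ h • ρ a) (h : G),
      ρ h * ρ a = χ h • (ρ a * ρ h) := by
    intro a ha h
    calc ρ h * ρ a = ρ h * ρ a * (ρ h⁻¹ * ρ h) := by rw [hinv', mul_one]
      _ = (ρ h * ρ a * ρ h⁻¹) * ρ h := by simp only [mul_assoc]
      _ = _ := by rw [ha h, smul_mul_assoc]
  intro h
  have e1 : χ h • (ρ (g⁻¹ * g') * ρ h) = χ h • (ρ h * ρ (g⁻¹ * g')) := by
    calc χ h • (ρ (g⁻¹ * g') * ρ h) = ρ g⁻¹ * (χ h • (ρ g' * ρ h)) := by
          rw [map_mul, mul_smul_comm, mul_assoc]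
      _ = ρ g⁻¹ * (ρ h * ρ g') := by rw [h3 g' h2 h]
      _ = ρ g⁻¹ * (ρ h * (ρ g * ρ g⁻¹) * ρ g') := by rw [hinv, mul_one]
      _ = ρ g⁻¹ * (ρ h * ρ g) * ρ g⁻¹ * ρ g' := by simp only [mul_assoc]
      _ = ρ g⁻¹ * (χ h • (ρ g * ρ h)) * ρ g⁻¹ * ρ g' := by rw [h3 g h1 h]
      _ = χ h • ((ρ g⁻¹ * ρ g) * ρ h * ρ g⁻¹ * ρ g') := by
          simp only [mul_smul_comm, smul_mul_assoc, mul_assoc]
      _ = χ h • (ρ h * ρ (g⁻¹ * g')) := by rw [hinv', one_mul, map_mul, mul_assoc]
  exact smul_right_injective _ (hχ h) e1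

/-- Let `ρ` be irreducible, and suppose that all commutators lie in `scal ρ`. Then
`(scal ρ).index ≤ (finrank V) ^ 2`. The operators `ρ g`, for `g` in a set of representatives of the
cosets of `scal ρ`, are linearly independent in the space of all operators: by `schur` the
commutator `h * g * h⁻¹ * g⁻¹` acts as a scalar `c h g`, so `ρ h * ρ g * ρ h⁻¹ = c h g • ρ g`, that
is, `ρ g` is a common eigenvector of the conjugations by the `ρ h`; two
representatives `g`, `g'` have different eigenvalue functions, because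
`c h g = c h g'` for all `h` means that `g⁻¹ * g'` commutes with all `ρ h`
(`ρ h * ρ (g⁻¹ * g') * ρ h⁻¹ = ρ (g⁻¹ * g')`), that is, `g⁻¹ * g' ∈ scal ρ`. Common eigenvectors
with pairwise different eigenvalue functions are linearly independent (shortest relation). -/
theorem index_scal_le [Finite G] [IsAlgClosed k] {V : Type} [AddCommGroup V] [Module k V]
    [FiniteDimensional k V] (ρ : Representation k G V) (hρ : Irr ρ)
    (hc : ∀ g h : G, ⁅g, h⁆ ∈ scal ρ) :
    (scal ρ).index ≤ Module.finrank k V ^ 2 := by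
  classical
  have hVn : Nontrivial V := hρ.1
  have hne : ∀ g : G, ρ g ≠ 0 := by
    intro g h
    have h1 : ρ g * ρ g⁻¹ = 1 := by rw [← map_mul, mul_inv_cancel, map_one]
    rw [h, zero_mul] at h1
    exact zero_ne_one h1
  choose χ hχ using Index_char ρ hρ hc
  have : Fintype (G ⧸ scal ρ) := Fintype.ofFinite _
  have hinj : Function.Injective fun x : G ⧸ scal ρ => χ (Quotient.out x) := by
    intro x y hxy
    have h1 : (Quotient.out x)⁻¹ * Quotient.out y ∈ scal ρ := by
      refine Index_inj ρ hρ _ _ (χ (Quotient.out x)) (hχ _) ?_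
      intro h
      have h2 : χ (Quotient.out x) = χ (Quotient.out y) := hxy
      rw [h2]
      exact hχ _ h
    have h3 := QuotientGroup.eq.2 h1
    rwa [QuotientGroup.out_eq', QuotientGroup.out_eq'] at h3
  have hD := (linearIndependent_monoidHom G k).comp _ hinj
  have hli : LinearIndependent k fun x : G ⧸ scal ρ => (ρ (Quotient.out x) : V →ₗ[k] V) := by
    rw [Fintype.linearIndependent_iff]
    intro a ha x
    by_contra hax
    have hφ : ∃ φ : Module.Dual k (V →ₗ[k] V), φ (ρ (Quotient.out x)) ≠ 0 := by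
      by_contra hcon
      push Not at hcon
      exact hne _ ((Module.forall_dual_apply_eq_zero_iff k _).1 hcon)
    obtain ⟨φ, hφ⟩ := hφ
    have h1 := Fintype.linearIndependent_iff.1 hD
      (fun y => a y * φ (ρ (Quotient.out y))) (by
        funext h
        rw [Finset.sum_apply]
        have h2 : ρ h * (∑ y, a y • (ρ (Quotient.out y) : V →ₗ[k] V)) * ρ h⁻¹ = 0 := by
          rw [ha, mul_zero, zero_mul]
        rw [Finset.mul_sum, Finset.sum_mul] at h2
        have h3 := congrArg φ h2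
        rw [map_sum, map_zero] at h3
        show _ = (0 : k)
        rw [← h3]
        refine Finset.sum_congr rfl fun y _ => ?_
        rw [mul_smul_comm, smul_mul_assoc, hχ, map_smul, map_smul]
        show (a y * φ (ρ (Quotient.out y))) * χ (Quotient.out y) h = _
        rw [smul_eq_mul, smul_eq_mul]
        ring) x
    rcases mul_eq_zero.1 h1 with h4 | h4
    · exact hax h4
    · exact hφ h4
  have h5 := hli.fintype_card_le_finrank
  rw [Module.finrank_linearMap] at h5
  rw [Subgroup.index, Nat.card_eq_fintype_card, pow_two]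
  exact h5

end Pool.Agent.W_bda8s_h78
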