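import Mathlib
import Pool.Agent.W_bda8f3_h78.LogDer

/-!
Lemma L: if Lemma Q holds, then the centralisers modulo `Y` of the terms of the lower central
series have index at least `δ`. Pure group theory.
-/

set_option autoImplicit false

namespace Pool.Agent.W_bda8s_h78

open scoped commutatorElement

variable {G : Type} [Group G]

/-- `{g | ⁅x, g⁆ ∈ Y for all x ∈ L}` for normal subgroups `L` and `Y`. (It is the kernel of the
action of `G` by conjugation on `L Y / Y`.) -/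
def cen (L Y : Subgroup G) [L.Normal] [Y.Normal] : Subgroup G where
  carrier := {g | ∀ x ∈ L, ⁅x, g⁆ ∈ Y}
  one_mem' := by
    intro x _
    rw [commutatorElement_one_right]
    exact Y.one_mem
  mul_mem' := by
    intro g h hg hh x hx
    have e : ⁅x, g * h⁆ = ⁅x, g⁆ * (g * ⁅x, h⁆ * g⁻¹) := by
      simp only [commutatorElement_def]
      group
    rw [e]
    exact Y.mul_mem (hg x hx) (Subgroup.Normal.conj_mem inferInstance _ (hh x hx) g)
  inv_mem' := by
    intro g hg x hx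
    have e : ⁅x, g⁻¹⁆ = g⁻¹ * ⁅x, g⁆⁻¹ * g⁻¹⁻¹ := by
      simp only [commutatorElement_def]
      group
    rw [e]
    exact Subgroup.Normal.conj_mem inferInstance _ (Y.inv_mem (hg x hx)) g⁻¹

theorem mem_cen (L Y : Subgroup G) [L.Normal] [Y.Normal] (g : G) :
    g ∈ cen L Y ↔ ∀ x ∈ L, ⁅x, g⁆ ∈ Y := Iff.rfl

/-- A subgroup `T` is in `cen L Y` if and only if `⁅L, T⁆ ≤ Y`. -/
theorem le_cen_iff (L Y T : Subgroup G) [L.Normal] [Y.Normal] : T ≤ cen L Y ↔ ⁅L, T⁆ ≤ Y := by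
  rw [Subgroup.commutator_le]
  constructor
  · intro h x hx g hg
    exact h hg x hx
  · intro h g hg x hx
    exact h x hx g hg

instance cen_normal (L Y : Subgroup G) [L.Normal] [Y.Normal] : (cen L Y).Normal := by
  constructor
  intro g hg h x hx
  have e : ⁅x, h * g * h⁻¹⁆ = h * ⁅h⁻¹ * x * h⁻¹⁻¹, g⁆ * h⁻¹ := by
    simp only [commutatorElement_def]
    group
  rw [e]
  refine Subgroup.Normal.conj_mem inferInstance _ (hg _ ?_) h
  exact Subgroup.Normal.conj_mem inferInstance _ hx h⁻¹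

theorem LemL_comm_le (A B : Subgroup G) : ⁅A, B⁆ ≤ (⊤ : Subgroup G).lowerCentralSeries 1 := by
  rw [Subgroup.lowerCentralSeries_succ, Subgroup.lowerCentralSeries_zero]
  exact Subgroup.commutator_mono le_top le_top

theorem LemL_index_le [Finite G] {T S : Subgroup G} (h : T ≤ S) : S.index ≤ T.index := by
  apply Nat.le_of_dvd
  · exact Nat.pos_of_ne_zero Subgroup.index_ne_zero_of_finite
  · exact Subgroup.index_dvd_of_le h

/-- the case `n = 1` -/
theorem LemL_one [Finite G] (δ : ℕ)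
    (hQ : ∀ T X : Subgroup G, X.Normal → ⁅T, T⁆ ≤ X →
      ¬ (⊤ : Subgroup G).lowerCentralSeries 1 ≤ X → δ ≤ T.index)
    (Y : Subgroup G) [Y.Normal]
    (hY : ¬ (⊤ : Subgroup G).lowerCentralSeries 2 ≤ Y) :
    δ ≤ (cen ((⊤ : Subgroup G).lowerCentralSeries 1) Y).index := by
  set L1 := (⊤ : Subgroup G).lowerCentralSeries 1 with hL1
  have e1 : L1 = ⁅(⊤ : Subgroup G), (⊤ : Subgroup G)⁆ := by
    rw [hL1, Subgroup.lowerCentralSeries_succ, Subgroup.lowerCentralSeries_zero]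
  have e2 : (⊤ : Subgroup G).lowerCentralSeries 2 = ⁅L1, (⊤ : Subgroup G)⁆ := by
    rw [hL1, ← Subgroup.lowerCentralSeries_succ]
  have hT : ⁅L1, cen L1 Y⁆ ≤ Y := (le_cen_iff L1 Y _).mp le_rfl
  have hTT : ⁅cen L1 Y, cen L1 Y⁆ ≤ L1 ⊓ cen ⊤ Y := by
    refine le_inf ?_ ?_
    · exact LemL_comm_le _ _
    · rw [le_cen_iff, Subgroup.commutator_comm]
      apply Pool.Agent.W_bda8f3_h78.LogDer_three
      · exact le_trans (Subgroup.commutator_mono (LemL_comm_le _ _) le_rfl) hT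
      · exact le_trans (Subgroup.commutator_mono (LemL_comm_le _ _) le_rfl) hT
  refine hQ _ (L1 ⊓ cen ⊤ Y) inferInstance hTT ?_
  intro h
  apply hY
  rw [e2, Subgroup.commutator_comm, ← le_cen_iff]
  exact le_trans h inf_le_right

/-- Lemma L. Write `L n` for the lower central series, `L 0 = ⊤`, and suppose that `δ ≤ T.index`
for all `T`, `X` with `X` normal, `⁅T, T⁆ ≤ X` and not `L 1 ≤ X`. Then for all `n ≥ 1` and all
normal `Y` that do not contain `L (n + 1)`: `δ ≤ (cen (L n) Y).index`.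
Induction on `n`. Let `T = cen (L n) Y`, so `⁅T, L n⁆ ≤ Y`.
Case `n = 1`. Let `R = L 1 ⊓ cen ⊤ Y`, a normal subgroup, with `⁅R, ⊤⁆ ≤ Y`; it does not contain
`L 1`, because `⁅L 1, ⊤⁆ = L 2` is not contained in `Y`. By the three subgroups lemma
modulo `Y` (`LogDer_three` in `W_bda8f3_h78/LogDer.lean`), `⁅⁅T, T⁆, ⊤⁆ ≤ Y`, because
`⁅⁅T, ⊤⁆, T⁆ ≤ ⁅L 1, T⁆ ≤ Y`. And `⁅T, T⁆ ≤ L 1`, so `⁅T, T⁆ ≤ R`; apply the hypothesis with
`X = R`.
Case `n ≥ 2`. (1) `⁅⁅T, T⁆, L (n - 1)⁆ ≤ Y` by three subgroups, because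
`⁅⁅T, L (n - 1)⁆, T⁆ ≤ ⁅L n, T⁆ ≤ Y`. Let `N = L 1 ⊓ cen (L (n - 1)) Y`. So `⁅T, T⁆ ≤ N`.
If `N` does not contain `L 1`, the hypothesis with `X = N` gives the result. Otherwise
`⁅L 1, L (n - 1)⁆ ≤ Y`. (2) Then `⁅⁅T, L (n - 1)⁆, ⊤⁆ ≤ Y` by three subgroups: because
`⁅⁅T, ⊤⁆, L (n - 1)⁆ ≤ ⁅L 1, L (n - 1)⁆ ≤ Y` and `⁅⁅L (n - 1), ⊤⁆, T⁆ = ⁅L n, T⁆ ≤ Y`. Let
`R = L n ⊓ cen ⊤ Y`, a normal subgroup that does not contain `L n` (because `⁅L n, ⊤⁆ = L (n + 1)`
is not contained in `Y`). So `⁅T, L (n - 1)⁆ ≤ R`, so `T ≤ cen (L (n - 1)) R`, and by induction for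
`n - 1` and `R`: `δ ≤ (cen (L (n - 1)) R).index ≤ T.index` (a divisor; indices are nonzero as `G`
is finite). -/
theorem lemL [Finite G] (δ : ℕ)
    (hQ : ∀ T X : Subgroup G, X.Normal → ⁅T, T⁆ ≤ X →
      ¬ (⊤ : Subgroup G).lowerCentralSeries 1 ≤ X → δ ≤ T.index)
    (n : ℕ) (hn : 1 ≤ n) (Y : Subgroup G) [Y.Normal]
    (hY : ¬ (⊤ : Subgroup G).lowerCentralSeries (n + 1) ≤ Y) :
    δ ≤ (cen ((⊤ : Subgroup G).lowerCentralSeries n) Y).index := by
  induction n, hn using Nat.le_induction generalizing Y with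
  | base => exact LemL_one δ hQ Y hY
  | succ m hm ih =>
    set L := fun k => (⊤ : Subgroup G).lowerCentralSeries k with hL
    have eS : ∀ k, (⊤ : Subgroup G).lowerCentralSeries (k + 1) =
        ⁅(⊤ : Subgroup G).lowerCentralSeries k, (⊤ : Subgroup G)⁆ := fun k =>
      Subgroup.lowerCentralSeries_succ _ k
    have e1 : (⊤ : Subgroup G).lowerCentralSeries 1 = ⁅(⊤ : Subgroup G), (⊤ : Subgroup G)⁆ := by
      rw [eS 0, Subgroup.lowerCentralSeries_zero]
    set T := cen ((⊤ : Subgroup G).lowerCentralSeries (m + 1)) Y with hTdef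
    have hT : ⁅(⊤ : Subgroup G).lowerCentralSeries (m + 1), T⁆ ≤ Y := (le_cen_iff _ Y T).mp le_rfl
    have hTm : ⁅T, (⊤ : Subgroup G).lowerCentralSeries m⁆ ≤
        (⊤ : Subgroup G).lowerCentralSeries (m + 1) := by
      rw [eS m, Subgroup.commutator_comm]
      exact Subgroup.commutator_mono le_rfl le_top
    have hTT : ⁅T, T⁆ ≤ (⊤ : Subgroup G).lowerCentralSeries 1 ⊓
        cen ((⊤ : Subgroup G).lowerCentralSeries m) Y := by
      refine le_inf ?_ ?_
      · exact LemL_comm_le _ _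
      · rw [le_cen_iff, Subgroup.commutator_comm]
        apply Pool.Agent.W_bda8f3_h78.LogDer_three
        · exact le_trans (Subgroup.commutator_mono hTm le_rfl) hT
        · refine le_trans (Subgroup.commutator_mono ?_ le_rfl) hT
          rw [Subgroup.commutator_comm]
          exact hTm
    by_cases hN : (⊤ : Subgroup G).lowerCentralSeries 1 ≤
        (⊤ : Subgroup G).lowerCentralSeries 1 ⊓ cen ((⊤ : Subgroup G).lowerCentralSeries m) Y
    · have h1m : ⁅(⊤ : Subgroup G).lowerCentralSeries 1,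
          (⊤ : Subgroup G).lowerCentralSeries m⁆ ≤ Y := by
        rw [Subgroup.commutator_comm, ← le_cen_iff]
        exact le_trans hN inf_le_right
      have h2 : ⁅⁅T, (⊤ : Subgroup G).lowerCentralSeries m⁆, (⊤ : Subgroup G)⁆ ≤ Y := by
        apply Pool.Agent.W_bda8f3_h78.LogDer_three
        · rw [← eS m]
          exact hT
        · exact le_trans (Subgroup.commutator_mono (LemL_comm_le _ _) le_rfl) h1m
      have h3 : T ≤ cen ((⊤ : Subgroup G).lowerCentralSeries m)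
          ((⊤ : Subgroup G).lowerCentralSeries (m + 1) ⊓ cen ⊤ Y) := by
        rw [le_cen_iff, Subgroup.commutator_comm]
        refine le_inf hTm ?_
        rw [le_cen_iff, Subgroup.commutator_comm]
        exact h2
      refine le_trans (ih ((⊤ : Subgroup G).lowerCentralSeries (m + 1) ⊓ cen ⊤ Y) ?_)
        (LemL_index_le h3)
      intro h
      apply hY
      rw [eS (m + 1), Subgroup.commutator_comm, ← le_cen_iff]
      exact le_trans h inf_le_right
    · exact hQ _ _ inferInstance hTT hN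

end Pool.Agent.W_bda8s_h78
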