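import Pool.Agent.W_bda8s_h78.LemL

/-!
The factors of the lower central series are large.
-/

set_option autoImplicit false

namespace Pool.Agent.W_bda8s_h78

open scoped commutatorElement

variable {G : Type} [Group G]

/-- Commutativity of the quotient `A / (B ⊓ A)` if `⁅A, ⊤⁆ ≤ B`. -/
theorem LemM_comm (A B : Subgroup G) [B.Normal] (h : ⁅A, (⊤ : Subgroup G)⁆ ≤ B)
    (x y : ↥A ⧸ B.subgroupOf A) : x * y = y * x := by
  induction x using QuotientGroup.induction_on with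
  | H a =>
    induction y using QuotientGroup.induction_on with
    | H b =>
      rw [← QuotientGroup.mk_mul, ← QuotientGroup.mk_mul, QuotientGroup.eq,
        Subgroup.mem_subgroupOf]
      apply h
      have h1 : (((a * b)⁻¹ * (b * a) : ↥A) : G) = ⁅((b⁻¹ : ↥A) : G), ((a⁻¹ : ↥A) : G)⁆ := by
        rw [commutatorElement_def]
        push_cast
        group
      rw [h1]
      exact Subgroup.commutator_mem_commutator (b⁻¹).2 (Subgroup.mem_top _)

/-- A nontrivial character of `K`, trivial on `⁅K, ⊤⁆`. -/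
theorem LemM_char [Finite G] (K : Subgroup G) [K.Normal]
    (h : ¬ K ≤ ⁅K, (⊤ : Subgroup G)⁆) :
    ∃ t : ↥K →* ℂˣ, (∀ k : ↥K, (k : G) ∈ ⁅K, (⊤ : Subgroup G)⁆ → t k = 1) ∧
      ∃ k : ↥K, t k ≠ 1 := by
  let N : Subgroup ↥K := (⁅K, (⊤ : Subgroup G)⁆).subgroupOf K
  letI : CommGroup (↥K ⧸ N) :=
    { (inferInstance : Group (↥K ⧸ N)) with
      mul_comm := LemM_comm K _ le_rfl }
  obtain ⟨k, hk, hk2⟩ := SetLike.not_le_iff_exists.mp h
  have h1 : (QuotientGroup.mk (⟨k, hk⟩ : ↥K) : ↥K ⧸ N) ≠ 1 := by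
    intro h2
    rw [QuotientGroup.eq_one_iff] at h2
    exact hk2 (Subgroup.mem_subgroupOf.mp h2)
  have hne : NeZero (Monoid.exponent (↥K ⧸ N)) := ⟨Monoid.exponent_ne_zero_of_finite⟩
  obtain ⟨l, hl⟩ := CommGroup.exists_apply_ne_one_of_hasEnoughRootsOfUnity (↥K ⧸ N) ℂ h1
  refine ⟨l.comp (QuotientGroup.mk' N), ?_, ⟨k, hk⟩, hl⟩
  intro x hx
  rw [MonoidHom.comp_apply]
  have h2 : QuotientGroup.mk' N x = 1 := by
    rw [QuotientGroup.mk'_apply, QuotientGroup.eq_one_iff]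
    exact Subgroup.mem_subgroupOf.mpr hx
  rw [h2, map_one]

/-- General form of `exists_normal_index_le`. -/
theorem LemM_gen [Finite G] (A : Subgroup G) [A.Normal]
    (hM : ¬ ⁅A, (⊤ : Subgroup G)⁆ ≤ ⁅⁅A, (⊤ : Subgroup G)⁆, (⊤ : Subgroup G)⁆) :
    ∃ (Y : Subgroup G) (_ : Y.Normal), ¬ ⁅A, (⊤ : Subgroup G)⁆ ≤ Y ∧
      (cen A Y).index ≤ (⁅A, (⊤ : Subgroup G)⁆).relIndex A := by
  obtain ⟨t, ht, k₀, hk₀⟩ := LemM_char _ hM
  have hKn : (⁅A, (⊤ : Subgroup G)⁆).Normal := inferInstance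
  have hmem : ∀ (x g : G), x ∈ A → ⁅x, g⁆ ∈ ⁅A, (⊤ : Subgroup G)⁆ := fun x g hx =>
    Subgroup.commutator_mem_commutator hx (Subgroup.mem_top _)
  have hconj : ∀ (k : ↥⁅A, (⊤ : Subgroup G)⁆) (g : G)
      (hg : g * (k : G) * g⁻¹ ∈ ⁅A, (⊤ : Subgroup G)⁆), t ⟨g * (k : G) * g⁻¹, hg⟩ = t k := by
    intro k g hg
    have h1 : (⟨g * (k : G) * g⁻¹, hg⟩ : ↥⁅A, (⊤ : Subgroup G)⁆) * k⁻¹ =
        ⟨⁅g, (k : G)⁆, by
          rw [commutatorElement_def]
          exact mul_mem hg (inv_mem k.2)⟩ := by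
      apply Subtype.ext
      push_cast
      rw [commutatorElement_def]
    have h2 : t ((⟨g * (k : G) * g⁻¹, hg⟩ : ↥⁅A, (⊤ : Subgroup G)⁆) * k⁻¹) = 1 := by
      rw [h1]
      apply ht
      rw [Subgroup.commutator_comm]
      exact Subgroup.commutator_mem_commutator (Subgroup.mem_top _) k.2
    rwa [map_mul, map_inv, mul_inv_eq_one] at h2
  let ψ : G → (↥A →* ℂˣ) := fun g =>
    { toFun := fun x => t ⟨⁅(x : G), g⁆, hmem _ _ x.2⟩
      map_one' := by
        have h1 : (⟨⁅((1 : ↥A) : G), g⁆, hmem _ _ (1 : ↥A).2⟩ : ↥⁅A, (⊤ : Subgroup G)⁆) = 1 := by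
          apply Subtype.ext
          push_cast
          exact commutatorElement_one_left g
        rw [h1, map_one]
      map_mul' := by
        intro x y
        have hg : (x : G) * ⁅(y : G), g⁆ * (x : G)⁻¹ ∈ ⁅A, (⊤ : Subgroup G)⁆ :=
          hKn.conj_mem _ (hmem _ _ y.2) _
        have h1 : (⟨⁅((x * y : ↥A) : G), g⁆, hmem _ _ (x * y).2⟩ : ↥⁅A, (⊤ : Subgroup G)⁆) =
            ⟨(x : G) * ⁅(y : G), g⁆ * (x : G)⁻¹, hg⟩ * ⟨⁅(x : G), g⁆, hmem _ _ x.2⟩ := by
          apply Subtype.ext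
          push_cast
          simp only [commutatorElement_def]
          group
        rw [h1, map_mul]
        have h2 := hconj ⟨⁅(y : G), g⁆, hmem _ _ y.2⟩ (x : G) hg
        rw [h2, mul_comm] }
  have hψ : ∀ (g : G) (x : ↥A), ψ g x = t ⟨⁅(x : G), g⁆, hmem _ _ x.2⟩ := fun g x => rfl
  let N : Subgroup ↥A := (⁅A, (⊤ : Subgroup G)⁆).subgroupOf A
  letI : CommGroup (↥A ⧸ N) :=
    { (inferInstance : Group (↥A ⧸ N)) with
      mul_comm := LemM_comm A _ le_rfl }
  have hker : ∀ g : G, ∀ x : ↥A, x ∈ N → ψ g x = 1 := by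
    intro g x hx
    rw [hψ]
    apply ht
    exact Subgroup.commutator_mem_commutator (Subgroup.mem_subgroupOf.mp hx) (Subgroup.mem_top _)
  let Ψ : G →* ((↥A ⧸ N) →* ℂˣ) :=
    { toFun := fun g => QuotientGroup.lift N (ψ g) (fun x hx => hker g x hx)
      map_one' := by
        refine MonoidHom.ext fun x => ?_
        induction x using QuotientGroup.induction_on with
        | H a =>
          have h1 : (⟨⁅(a : G), 1⁆, hmem _ _ a.2⟩ : ↥⁅A, (⊤ : Subgroup G)⁆) = 1 := by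
            apply Subtype.ext
            exact commutatorElement_one_right (a : G)
          have h2 : ψ 1 a = 1 := by rw [hψ, h1, map_one]
          have h3 : (QuotientGroup.lift N (ψ 1) (fun x hx => hker 1 x hx)) (a : ↥A ⧸ N) = ψ 1 a :=
            rfl
          rw [h3, h2, MonoidHom.one_apply]
      map_mul' := by
        intro g h
        refine MonoidHom.ext fun x => ?_
        induction x using QuotientGroup.induction_on with
        | H a =>
          have hg : g * ⁅(a : G), h⁆ * g⁻¹ ∈ ⁅A, (⊤ : Subgroup G)⁆ :=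
            hKn.conj_mem _ (hmem _ _ a.2) _
          have h1 : (⟨⁅(a : G), g * h⁆, hmem _ _ a.2⟩ : ↥⁅A, (⊤ : Subgroup G)⁆) =
              ⟨⁅(a : G), g⁆, hmem _ _ a.2⟩ * ⟨g * ⁅(a : G), h⁆ * g⁻¹, hg⟩ := by
            apply Subtype.ext
            push_cast
            simp only [commutatorElement_def]
            group
          have h2 := hconj ⟨⁅(a : G), h⁆, hmem _ _ a.2⟩ g hg
          have h4 : ψ (g * h) a = ψ g a * ψ h a := by
            rw [hψ, hψ, hψ, h1, map_mul, h2]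
          have h3 : ∀ u : G, (QuotientGroup.lift N (ψ u) (fun x hx => hker u x hx))
              (a : ↥A ⧸ N) = ψ u a := fun u => rfl
          rw [MonoidHom.mul_apply, h3, h3, h3, h4] }
  have hΨ : ∀ (g : G) (a : ↥A), Ψ g (a : ↥A ⧸ N) = t ⟨⁅(a : G), g⁆, hmem _ _ a.2⟩ :=
    fun g a => rfl
  let Y : Subgroup G := t.ker.map (⁅A, (⊤ : Subgroup G)⁆).subtype
  have hYmem : ∀ y : G, y ∈ Y ↔ ∃ h : y ∈ ⁅A, (⊤ : Subgroup G)⁆, t ⟨y, h⟩ = 1 := by
    intro y
    constructor
    · rintro ⟨z, hz, rfl⟩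
      exact ⟨z.2, hz⟩
    · rintro ⟨h, h2⟩
      exact ⟨⟨y, h⟩, h2, rfl⟩
  have hYn : Y.Normal := by
    constructor
    intro y hy g
    obtain ⟨h1, h2⟩ := (hYmem y).mp hy
    refine (hYmem _).mpr ⟨hKn.conj_mem _ h1 g, ?_⟩
    rw [hconj ⟨y, h1⟩ g, h2]
  refine ⟨Y, hYn, ?_, ?_⟩
  · intro hle
    obtain ⟨h1, h2⟩ := (hYmem _).mp (hle k₀.2)
    exact hk₀ h2
  · have hkerΨ : Ψ.ker = cen A Y := by
      ext g
      rw [MonoidHom.mem_ker, mem_cen]
      constructor
      · intro h x hx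
        refine (hYmem _).mpr ⟨hmem _ _ hx, ?_⟩
        rw [← hΨ g ⟨x, hx⟩, h, MonoidHom.one_apply]
      · intro h
        refine MonoidHom.ext fun x => ?_
        induction x using QuotientGroup.induction_on with
        | H a =>
          obtain ⟨h1, h2⟩ := (hYmem _).mp (h a a.2)
          rw [hΨ, h2, MonoidHom.one_apply]
    have hne : NeZero (Monoid.exponent (↥A ⧸ N)) := ⟨Monoid.exponent_ne_zero_of_finite⟩
    have hcard : Nat.card ((↥A ⧸ N) →* ℂˣ) = Nat.card (↥A ⧸ N) :=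
      CommGroup.card_monoidHom_of_hasEnoughRootsOfUnity (↥A ⧸ N) ℂ
    have hfin : Finite ((↥A ⧸ N) →* ℂˣ) := by
      apply Nat.finite_of_card_ne_zero
      rw [hcard]
      exact Nat.card_pos.ne'
    rw [← hkerΨ, Subgroup.index_ker]
    have h5 : Nat.card Ψ.range ≤ Nat.card ((↥A ⧸ N) →* ℂˣ) :=
      Nat.card_le_card_of_injective _ Subtype.val_injective
    rw [hcard] at h5
    exact h5

/-- There are a normal subgroup `Y` that does not contain `L (n + 1)` such that
`(cen (L n) Y).index ≤ |L n : L (n + 1)|`. Let `K = L (n + 1)`, `M = L (n + 2) = ⁅K, ⊤⁆`, so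
`M < K` (`G` is nilpotent and `K ≠ ⊥`). The group `K / M` is a nontrivial finite abelian group, so
it has a nontrivial homomorphism to `ℂˣ`
(`CommGroup.exists_apply_ne_one_of_hasEnoughRootsOfUnity`); so there
is a homomorphism `θ : K →* ℂˣ`, trivial on `M`, not trivial. Let `Y` be its kernel, as a subgroup
of `G`: it is normal because `M ≤ Y ≤ K` and `⁅Y, ⊤⁆ ≤ ⁅K, ⊤⁆ = M`. For `g : G` the map
`ψ g : L n → ℂˣ`, `x ↦ θ ⁅x, g⁆`, is a homomorphism (modulo `M`, `⁅x * y, g⁆ = ⁅x, g⁆ * ⁅y, g⁆`)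
trivial on `L (n + 1)` (because `⁅L (n + 1), ⊤⁆ = M`), and `g ↦ ψ g` is a homomorphism from `G` to
the group of homomorphisms `L n / L (n + 1) →* ℂˣ`, with kernel `cen (L n) Y`. The order of this
group is `|L n : L (n + 1)|` (`CommGroup.card_monoidHom_of_hasEnoughRootsOfUnity`). -/
theorem exists_normal_index_le [Finite G] (hnil : Group.IsNilpotent G) (n : ℕ)
    (hne : (⊤ : Subgroup G).lowerCentralSeries (n + 1) ≠ ⊥) :
    ∃ (Y : Subgroup G) (_ : Y.Normal), ¬ (⊤ : Subgroup G).lowerCentralSeries (n + 1) ≤ Y ∧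
      (cen ((⊤ : Subgroup G).lowerCentralSeries n) Y).index ≤
        ((⊤ : Subgroup G).lowerCentralSeries (n + 1)).relIndex
          ((⊤ : Subgroup G).lowerCentralSeries n) := by
  have hM : ¬ (⊤ : Subgroup G).lowerCentralSeries (n + 1) ≤
      ⁅(⊤ : Subgroup G).lowerCentralSeries (n + 1), (⊤ : Subgroup G)⁆ := by
    intro h
    have h1 : ∀ j : ℕ, (⊤ : Subgroup G).lowerCentralSeries (n + 1) ≤
        (⊤ : Subgroup G).lowerCentralSeries (n + 1 + j) := by
      intro j
      induction j with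
      | zero => exact le_rfl
      | succ j ih =>
        refine h.trans ?_
        exact Subgroup.commutator_mono ih le_rfl
    obtain ⟨c, hc⟩ := Subgroup.nilpotent_iff_lowerCentralSeries.mp hnil
    apply hne
    rw [eq_bot_iff, ← hc]
    exact (h1 c).trans (Subgroup.lowerCentralSeries_antitone _ (by omega))
  exact LemM_gen ((⊤ : Subgroup G).lowerCentralSeries n) hM

/-- `|K| * |A : K| = |A|` for `K ≤ A`. -/
theorem LemM_card (K A : Subgroup G) (h : K ≤ A) :
    Nat.card K * K.relIndex A = Nat.card A := by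
  rw [← Nat.card_congr (Subgroup.subgroupOfEquivOfLe h).toEquiv]
  exact Subgroup.card_mul_index _

/-- By `lemL` and `exists_normal_index_le`, `δ ≤ |L n : L (n + 1)|` for `1 ≤ n` as long as
`L (n + 1) ≠ ⊥`; multiply. -/
theorem pow_le_card [Finite G] (hnil : Group.IsNilpotent G) (δ : ℕ)
    (hQ : ∀ T X : Subgroup G, X.Normal → ⁅T, T⁆ ≤ X →
      ¬ (⊤ : Subgroup G).lowerCentralSeries 1 ≤ X → δ ≤ T.index)
    (n : ℕ) (hne : (⊤ : Subgroup G).lowerCentralSeries (n + 1) ≠ ⊥) :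
    δ ^ n ≤ Nat.card G := by
  have key : ∀ m : ℕ, m ≤ n →
      δ ^ m * Nat.card ((⊤ : Subgroup G).lowerCentralSeries (m + 1)) ≤ Nat.card G := by
    intro m
    induction m with
    | zero =>
      intro _
      rw [pow_zero, one_mul]
      exact Nat.card_le_card_of_injective _ Subtype.val_injective
    | succ m ih =>
      intro hm
      have ih' := ih (by omega)
      have hne' : (⊤ : Subgroup G).lowerCentralSeries (m + 1 + 1) ≠ ⊥ := by
        intro h
        apply hne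
        rw [eq_bot_iff, ← h]
        exact Subgroup.lowerCentralSeries_antitone _ (by omega)
      obtain ⟨Y, hYn, hY1, hY2⟩ := exists_normal_index_le hnil (m + 1) hne'
      have h1 := lemL δ hQ (m + 1) (by omega) Y hY1
      have h2 : δ ≤ ((⊤ : Subgroup G).lowerCentralSeries (m + 1 + 1)).relIndex
          ((⊤ : Subgroup G).lowerCentralSeries (m + 1)) := h1.trans hY2
      have h3 : Nat.card ((⊤ : Subgroup G).lowerCentralSeries (m + 1 + 1)) *
          ((⊤ : Subgroup G).lowerCentralSeries (m + 1 + 1)).relIndex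
          ((⊤ : Subgroup G).lowerCentralSeries (m + 1)) =
          Nat.card ((⊤ : Subgroup G).lowerCentralSeries (m + 1)) :=
        LemM_card _ _ (Subgroup.lowerCentralSeries_antitone _ (Nat.le_succ _))
      calc δ ^ (m + 1) * Nat.card ((⊤ : Subgroup G).lowerCentralSeries (m + 1 + 1))
          = δ ^ m * (Nat.card ((⊤ : Subgroup G).lowerCentralSeries (m + 1 + 1)) * δ) := by
            rw [pow_succ]; ring
        _ ≤ δ ^ m * (Nat.card ((⊤ : Subgroup G).lowerCentralSeries (m + 1 + 1)) *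
          ((⊤ : Subgroup G).lowerCentralSeries (m + 1 + 1)).relIndex
          ((⊤ : Subgroup G).lowerCentralSeries (m + 1))) := by gcongr
        _ = δ ^ m * Nat.card ((⊤ : Subgroup G).lowerCentralSeries (m + 1)) := by rw [h3]
        _ ≤ Nat.card G := ih'
  have h := key n le_rfl
  refine le_trans ?_ h
  exact Nat.le_mul_of_pos_right _ Nat.card_pos

end Pool.Agent.W_bda8s_h78
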