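import Pool.Agent.W_bda8s_h78.Faith
import Pool.Agent.W_bda8s_h78.Schur
import Pool.Agent.W_bda8s_h78.Center
import Pool.Agent.W_bda8s_h78.Compl

/-!
Groups all of whose nonlinear degrees are large.
-/

set_option autoImplicit false

namespace Pool.Agent.W_bda8s_h78

open Pool.Agent.H58_bda8f3 Pool.Agent.W_bda8f3_h78 MonoidAlgebra
open scoped commutatorElement

variable {k G : Type} [Field k] [Group G]

theorem LemQ_scalar {V : Type} [AddCommGroup V] [Module k V] (h : Module.finrank k V = 1)
    (T : V →ₗ[k] V) : ∃ c : k, T = c • (1 : V →ₗ[k] V) := by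
  obtain ⟨v, hv, hs⟩ := finrank_eq_one_iff'.1 h
  obtain ⟨c, hc⟩ := hs (T v)
  refine ⟨c, LinearMap.ext fun w => ?_⟩
  obtain ⟨d, rfl⟩ := hs w
  rw [map_smul, ← hc]
  show d • c • v = c • d • v
  rw [smul_comm]

/-- A nonabelian group has an irreducible representation of dimension different from `1`: in
dimension `1` all commutators act trivially; use `exists_irr_ne_one` for a commutator `≠ 1`. -/
theorem exists_nonlinear [Finite G] (hG : (Nat.card G : k) ≠ 0)
    (hab : ¬ ∀ x y : G, x * y = y * x) :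
    ∃ (V : Type) (_ : AddCommGroup V) (_ : Module k V) (ρ : Representation k G V), Irr ρ ∧
      Module.finrank k V ≠ 1 := by
  push Not at hab
  obtain ⟨x, y, hxy⟩ := hab
  have hne : ⁅x, y⁆ ≠ 1 := by
    rw [Ne, commutatorElement_eq_one_iff_mul_comm]
    exact hxy
  obtain ⟨V, _, _, ρ, hρ, h1⟩ := exists_irr_ne_one hG ⁅x, y⁆ hne
  refine ⟨V, _, _, ρ, hρ, fun h2 => h1 ?_⟩
  obtain ⟨c, hc⟩ := LemQ_scalar h2 (ρ x)
  have h3 : ρ x * ρ y = ρ y * ρ x := by
    rw [hc, smul_mul_assoc, one_mul, mul_smul_comm, mul_one]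
  have hx : ρ x * ρ x⁻¹ = 1 := by rw [← map_mul, mul_inv_cancel, map_one]
  have hy : ρ y * ρ y⁻¹ = 1 := by rw [← map_mul, mul_inv_cancel, map_one]
  rw [commutatorElement_def, map_mul, map_mul, map_mul, h3, mul_assoc (ρ y), hx, mul_one, hy]

/-- The degree is at most the index of an abelian subgroup: `T` has a common eigenvector `v`
(the restriction to `T` contains a nonzero stable subspace of smallest dimension,
on which `T` acts irreducibly, hence by scalars by `schur`, hence of dimension `1`); the vectors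
`ρ g v`, `g` in a set of representatives of the left cosets of `T`, span a nonzero stable
subspace. -/
theorem finrank_le_index [Finite G] [IsAlgClosed k] (T : Subgroup G)
    (hT : ∀ x ∈ T, ∀ y ∈ T, x * y = y * x) {V : Type} [AddCommGroup V] [Module k V]
    (ρ : Representation k G V) (hρ : Irr ρ) : Module.finrank k V ≤ T.index := by
  classical
  have hfd : FiniteDimensional k V := Irr.fd ρ hρ
  have hnt : Nontrivial V := hρ.1
  let τ : Representation k T V := ρ.comp T.subtype
  have hτ : ∀ (t : T) (v : V), τ t v = ρ t v := fun _ _ => rfl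
  obtain ⟨S, -, hS, hS0, hmin⟩ := Compl_min τ (Module.finrank k (⊤ : Submodule k V)) ⊤ rfl
    (fun _ _ _ => trivial) top_ne_bot
  -- the elements of `T` act on `S` as scalars
  have hsc : ∀ t : T, ∃ c : k, ∀ s ∈ S, τ t s = c • s := by
    intro t
    have hSn : Nontrivial S := Submodule.nontrivial_iff_ne_bot.2 hS0
    let A : S →ₗ[k] S := (τ t).restrict (fun s hs => hS t s hs)
    obtain ⟨c, hc⟩ := Module.End.exists_eigenvalue A
    let E : Submodule k V := (Module.End.eigenspace A c).map S.subtype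
    have hE : Stable τ E := by
      rintro g _ ⟨u, hu, rfl⟩
      refine ⟨⟨τ g u, hS g u u.2⟩, ?_, rfl⟩
      have hu' : A u = c • u := Module.End.mem_eigenspace_iff.1 hu
      refine Module.End.mem_eigenspace_iff.2 (Subtype.ext ?_)
      show τ t (τ g u) = c • τ g u
      have h1 : τ t u = c • (u : V) := congrArg Subtype.val hu'
      have h2 : (t : G) * g = g * t := hT t t.2 g g.2
      show ρ t (ρ g u) = c • ρ g u
      have h3 : ρ t (ρ g (u : V)) = ρ g (ρ t (u : V)) := by
        rw [← Module.End.mul_apply, ← Module.End.mul_apply, ← map_mul, ← map_mul, h2]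
      rw [h3, show ρ (t : G) (u : V) = c • (u : V) from h1, map_smul]
    have hEle : E ≤ S := by
      rintro _ ⟨u, -, rfl⟩
      exact u.2
    have hE0 : E ≠ ⊥ := by
      intro h
      apply hc
      rw [eq_bot_iff]
      intro u hu
      have h1 : (u : V) ∈ E := ⟨u, hu, rfl⟩
      rw [h, Submodule.mem_bot] at h1
      exact (Submodule.mem_bot k).2 (Subtype.ext h1)
    rcases hmin E hEle hE with h | h
    · exact absurd h hE0
    · refine ⟨c, fun s hs => ?_⟩
      rw [← h] at hs
      obtain ⟨u, hu, rfl⟩ := hs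
      exact congrArg Subtype.val (Module.End.mem_eigenspace_iff.1 hu)
  obtain ⟨v, hvS, hv0⟩ := Submodule.exists_mem_ne_zero_of_ne_bot hS0
  choose c hc using hsc
  -- the span of the translates
  let W : Submodule k V := Submodule.span k (Set.range fun q : G ⧸ T => ρ q.out v)
  have hmem : ∀ g : G, ρ g v ∈ W := by
    intro g
    obtain ⟨t, ht⟩ := QuotientGroup.mk_out_eq_mul T g
    have h1 : ρ (Quotient.out (g : G ⧸ T)) v = c t • ρ g v := by
      rw [ht, map_mul, Module.End.mul_apply]
      have h2 := hc t v hvS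
      rw [hτ] at h2
      rw [h2, map_smul]
    have hc0 : c t ≠ 0 := by
      intro h0
      rw [h0, zero_smul] at h1
      have h2 : ρ (Quotient.out (g : G ⧸ T))⁻¹ (ρ (Quotient.out (g : G ⧸ T)) v) = v := by
        rw [← Module.End.mul_apply, ← map_mul, inv_mul_cancel, map_one, Module.End.one_apply]
      rw [h1, map_zero] at h2
      exact hv0 h2.symm
    have h3 : ρ g v = (c t)⁻¹ • ρ (Quotient.out (g : G ⧸ T)) v := by
      rw [h1, smul_smul, inv_mul_cancel₀ hc0, one_smul]
    rw [h3]
    exact W.smul_mem _ (Submodule.subset_span ⟨(g : G ⧸ T), rfl⟩)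
  have hW : Stable ρ W := by
    intro g u hu
    induction hu using Submodule.span_induction with
    | mem x hx =>
      obtain ⟨q, rfl⟩ := hx
      show ρ g (ρ q.out v) ∈ W
      rw [← Module.End.mul_apply, ← map_mul]
      exact hmem _
    | zero => rw [map_zero]; exact W.zero_mem
    | add x y _ _ hx hy => rw [map_add]; exact W.add_mem hx hy
    | smul a x _ hx => rw [map_smul]; exact W.smul_mem _ hx
  have hWtop : W = ⊤ := by
    rcases hρ.2 W hW with h | h
    · exfalso
      have h1 := hmem 1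
      rw [h, map_one, Module.End.one_apply, Submodule.mem_bot] at h1
      exact hv0 h1
    · exact h
  have hfin : Fintype (G ⧸ T) := Fintype.ofFinite _
  have h1 : Module.finrank k W ≤ Fintype.card (G ⧸ T) := by
    exact finrank_range_le_card (R := k) (fun q : G ⧸ T => ρ q.out v)
  rw [hWtop, finrank_top] at h1
  rwa [Subgroup.index, Nat.card_eq_fintype_card]

/-- Lemma Q. If all degrees of `G` are `1` or at least `δ`, `T ≤ G`, `X` is normal,
`⁅T, T⁆ ≤ X` but not `⁅⊤, ⊤⁆ ≤ X`, then `δ ≤ T.index`. Apply `exists_nonlinear` and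
`finrank_le_index` to `G ⧸ X` and the image of `T`, the index of which is at most `T.index`;
`simpleDims_quotient` of `H58_bda8f3/Final.lean`. -/
theorem lemQ [Finite G] [IsAlgClosed k] (hG : (Nat.card G : k) ≠ 0) (δ : ℕ)
    (hδ : ∀ d ∈ simpleDims k G, d = 1 ∨ δ ≤ d) (T X : Subgroup G) [X.Normal]
    (hTX : ⁅T, T⁆ ≤ X) (hX : ¬ ⁅(⊤ : Subgroup G), (⊤ : Subgroup G)⁆ ≤ X) : δ ≤ T.index := by
  have hcard : (Nat.card (G ⧸ X) : k) ≠ 0 := by
    intro h0
    apply hG
    have h1 := Subgroup.card_eq_card_quotient_mul_card_subgroup X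
    rw [h1, Nat.cast_mul, h0, zero_mul]
  have hab : ¬ ∀ x y : G ⧸ X, x * y = y * x := by
    intro h
    apply hX
    rw [Subgroup.commutator_le]
    intro x _ y _
    have h1 := h (x : G ⧸ X) y
    rw [← QuotientGroup.eq_one_iff]
    show ((x * y * x⁻¹ * y⁻¹ : G) : G ⧸ X) = 1
    rw [QuotientGroup.mk_mul, QuotientGroup.mk_mul, QuotientGroup.mk_mul, h1,
      QuotientGroup.mk_inv, QuotientGroup.mk_inv]
    group
  obtain ⟨V, _, _, ρ, hρ, h1⟩ := exists_nonlinear hcard hab
  have h2 : Module.finrank k V ∈ simpleDims k G :=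
    simpleDims_quotient (k := k) X ((mem_simpleDims_iff _).2 ⟨V, _, _, ρ, hρ, rfl⟩)
  have h3 : δ ≤ Module.finrank k V := (hδ _ h2).resolve_left h1
  have h4 := finrank_le_index (T.map (QuotientGroup.mk' X)) (by
    rintro _ ⟨a, ha, rfl⟩ _ ⟨b, hb, rfl⟩
    rw [← map_mul, ← map_mul]
    show ((a * b : G) : G ⧸ X) = ((b * a : G) : G ⧸ X)
    rw [QuotientGroup.eq]
    have h5 : ⁅b⁻¹, a⁻¹⁆ ∈ X := hTX (Subgroup.commutator_mem_commutator (T.inv_mem hb)
      (T.inv_mem ha))
    have h6 : (a * b)⁻¹ * (b * a) = ⁅b⁻¹, a⁻¹⁆ := by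
      rw [commutatorElement_def]
      group
    rw [h6]
    exact h5) ρ hρ
  refine h3.trans (h4.trans ?_)
  have h5 := Subgroup.index_map T (QuotientGroup.mk' X)
  rw [QuotientGroup.ker_mk', (MonoidHom.range_eq_top).2 (QuotientGroup.mk'_surjective X),
    Subgroup.index_top, mul_one] at h5
  rw [h5]
  exact Nat.le_of_dvd (Nat.pos_of_ne_zero T.index_ne_zero_of_finite)
    (Subgroup.index_dvd_of_le le_sup_left)

end Pool.Agent.W_bda8s_h78
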