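import Pool.Agent.W_bda8s_h78.OverA

/-!
Clifford's theorem in a weak form.
-/

set_option autoImplicit false

namespace Pool.Agent.W_bda8s_h78

open Pool.Agent.H58_bda8f3 Pool.Agent.W_bda8f3_h78 MonoidAlgebra

variable {k G : Type} [Field k] [Group G]

/-- A nonzero map from a representation of `G` to an irreducible representation of the subgroup
`H` that commutes with `H` is surjective (its range is stable under `σ`). -/
theorem surj_of_ne_zero (H : Subgroup G) {X E : Type} [AddCommGroup X] [Module k X]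
    [AddCommGroup E] [Module k E] (ρ : Representation k G X) (σ : Representation k H E)
    (hσ : Irr σ) (f : X →ₗ[k] E) (hf : f ≠ 0) (hfe : ∀ (h : H) (x : X), f (ρ h x) = σ h (f x)) :
    Function.Surjective f := by
  have hst : Stable σ (LinearMap.range f) := by
    rintro h _ ⟨x, rfl⟩
    exact ⟨ρ h x, hfe h x⟩
  rcases hσ.2 _ hst with h0 | h1
  · exact absurd (LinearMap.range_eq_bot.1 h0) hf
  · exact LinearMap.range_eq_top.1 h1

/-- Weak form of Clifford's theorem. Let `R` be normal in `G`, let `ρ` be an irreducible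
representation of `G` on `X` of which the irreducible representation `σ` of `R` on `E` is a
quotient. Then every nonzero `R`-stable subspace `U` of `X` has dimension at least `finrank E`.
The sum of the subspaces `ρ g U`, `g : G`, is stable under `G`, so it is `⊤`; hence `f` is not zero
on some `ρ g U`. Since `R` is normal, `ρ g U` is `R`-stable; its image under `f` is `R`-stable and
not zero, so it is `E`. Therefore `finrank E ≤ finrank (ρ g U) ≤ finrank U`. -/
theorem finrank_le_of_stable (R : Subgroup G) [R.Normal] {X E : Type} [AddCommGroup X]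
    [Module k X] [FiniteDimensional k X] [AddCommGroup E] [Module k E]
    (ρ : Representation k G X) (hρ : Irr ρ) (σ : Representation k R E)
    (hσ : Irr σ) (f : X →ₗ[k] E) (hf : f ≠ 0) (hfe : ∀ (r : R) (x : X), f (ρ r x) = σ r (f x))
    (U : Submodule k X) (hU : ∀ r : R, ∀ u ∈ U, ρ r u ∈ U) (hU0 : U ≠ ⊥) :
    Module.finrank k E ≤ Module.finrank k U := by
  have hW : Stable ρ (⨆ g : G, U.map (ρ g)) := by
    intro h u hu
    have h1 : ρ h u ∈ (⨆ g : G, U.map (ρ g)).map (ρ h) := Submodule.mem_map_of_mem hu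
    rw [Submodule.map_iSup] at h1
    have h2 : (⨆ g : G, (U.map (ρ g)).map (ρ h)) ≤ ⨆ g : G, U.map (ρ g) := by
      refine iSup_le fun g => ?_
      rw [← Submodule.map_comp, ← Module.End.mul_eq_comp, ← map_mul]
      exact le_iSup (fun g : G => U.map (ρ g)) (h * g)
    exact h2 h1
  have hne : (⨆ g : G, U.map (ρ g)) ≠ ⊥ := by
    intro h0
    have h1 : U.map (ρ 1) ≤ ⨆ g : G, U.map (ρ g) := le_iSup (fun g : G => U.map (ρ g)) 1
    rw [h0, map_one, Module.End.one_eq_id, Submodule.map_id, le_bot_iff] at h1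
    exact hU0 h1
  have htop : (⨆ g : G, U.map (ρ g)) = ⊤ := (hρ.2 _ hW).resolve_left hne
  obtain ⟨g, u, hu, hgu⟩ : ∃ g : G, ∃ u ∈ U, f (ρ g u) ≠ 0 := by
    by_contra hcon
    push Not at hcon
    apply hf
    have h1 : (⨆ g : G, U.map (ρ g)) ≤ LinearMap.ker f := by
      refine iSup_le fun g => ?_
      rintro _ ⟨u, hu, rfl⟩
      exact hcon g u hu
    rw [htop, top_le_iff] at h1
    exact LinearMap.ker_eq_top.1 h1
  have hst : Stable σ ((U.map (ρ g)).map f) := by
    rintro r _ ⟨_, ⟨v, hv, rfl⟩, rfl⟩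
    refine ⟨ρ g (ρ (g⁻¹ * (r : G) * g) v), ⟨_, ?_, rfl⟩, ?_⟩
    · have hr : g⁻¹ * (r : G) * g ∈ R := by
        have h1 := ‹R.Normal›.conj_mem r r.2 g⁻¹
        rwa [inv_inv] at h1
      exact hU ⟨_, hr⟩ v hv
    · have h1 : ρ g (ρ (g⁻¹ * (r : G) * g) v) = ρ (r : G) (ρ g v) := by
        rw [← Module.End.mul_apply, ← Module.End.mul_apply, ← map_mul, ← map_mul]
        congr 2
        group
      rw [h1]
      exact hfe r (ρ g v)
  have hne2 : (U.map (ρ g)).map f ≠ ⊥ := by
    intro h0
    have h1 : f (ρ g u) ∈ (U.map (ρ g)).map f :=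
      Submodule.mem_map_of_mem (Submodule.mem_map_of_mem hu)
    rw [h0, Submodule.mem_bot] at h1
    exact hgu h1
  have h1 := (hσ.2 _ hst).resolve_left hne2
  have h2 : Module.finrank k ((U.map (ρ g)).map f) = Module.finrank k E := by
    rw [h1, finrank_top]
  rw [← h2]
  exact (Submodule.finrank_map_le f _).trans (Submodule.finrank_map_le (ρ g) U)

/-- If all irreducible representations of `G` have degree at most `B`, so have those of a
subgroup (`exists_over`, `surj_of_ne_zero`). -/
theorem simpleDims_subgroup_le [Finite G] (H : Subgroup G) (B : ℕ)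
    (hB : ∀ d ∈ simpleDims k G, d ≤ B) : ∀ d ∈ simpleDims k H, d ≤ B := by
  intro d hd
  obtain ⟨E, iE, mE, σ, hσ, hdE⟩ := (mem_simpleDims_iff d).1 hd
  obtain ⟨X, iX, mX, ρ, hρ, -, f, hf, hfe⟩ := exists_over H E σ hσ
  have hfd := Irr.fd ρ hρ
  have hs := surj_of_ne_zero H ρ σ hσ f hf hfe
  have h1 : Module.finrank k X ∈ simpleDims k G :=
    (mem_simpleDims_iff _).2 ⟨X, iX, mX, ρ, hρ, rfl⟩
  have h2 := LinearMap.finrank_range_le f
  rw [LinearMap.range_eq_top.2 hs, finrank_top] at h2
  rw [← hdE]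
  exact h2.trans (hB _ h1)

end Pool.Agent.W_bda8s_h78
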