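import Pool.Agent.W_bda8s_h78.Bridge

/-!
Frobenius reciprocity in a weak form.
-/

set_option autoImplicit false

namespace Pool.Agent.W_bda8s_h78

open Pool.Agent.H58_bda8f3 Pool.Agent.W_bda8f3_h78 MonoidAlgebra

variable {k G : Type} [Field k] [Group G]

/-- right translation on the functions `G → E` -/
noncomputable def OverA_tau (k G E : Type) [Field k] [Group G] [AddCommGroup E] [Module k E] :
    Representation k G (G → E) where
  toFun g :=
    { toFun := fun F x => F (x * g)
      map_add' := fun _ _ => rfl
      map_smul' := fun _ _ => rfl }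
  map_one' := by
    ext F x
    simp
  map_mul' a b := by
    ext F x
    simp [mul_assoc]

theorem OverA_tau_apply {E : Type} [AddCommGroup E] [Module k E] (g : G) (F : G → E) (x : G) :
    OverA_tau k G E g F x = F (x * g) := rfl

/-- the induced module -/
def OverA_ind (H : Subgroup G) (E : Type) [AddCommGroup E] [Module k E]
    (σ : Representation k H E) : Submodule k (G → E) where
  carrier := {F | ∀ (h : H) (g : G), F (h * g) = σ h (F g)}
  add_mem' := by
    intro a b ha hb h g
    rw [Pi.add_apply, Pi.add_apply, ha, hb, map_add]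
  zero_mem' := by
    intro h g
    simp
  smul_mem' := by
    intro c a ha h g
    rw [Pi.smul_apply, Pi.smul_apply, ha, map_smul]

theorem OverA_mem_ind {H : Subgroup G} {E : Type} [AddCommGroup E] [Module k E]
    {σ : Representation k H E} {F : G → E} :
    F ∈ OverA_ind H E σ ↔ ∀ (h : H) (g : G), F (h * g) = σ h (F g) := Iff.rfl

theorem OverA_ind_stable (H : Subgroup G) (E : Type) [AddCommGroup E] [Module k E]
    (σ : Representation k H E) : Stable (OverA_tau k G E) (OverA_ind H E σ) := by
  intro g F hF
  rw [OverA_mem_ind] at hF ⊢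
  intro h x
  rw [OverA_tau_apply, OverA_tau_apply, mul_assoc, hF]

theorem OverA_ind_finrank [Finite G] (H : Subgroup G) (E : Type) [AddCommGroup E] [Module k E]
    [FiniteDimensional k E] (σ : Representation k H E) :
    Module.finrank k (OverA_ind H E σ) ≤ H.index * Module.finrank k E := by
  classical
  haveI : Fintype (G ⧸ H) := Fintype.ofFinite _
  let Φ : OverA_ind H E σ →ₗ[k] ((G ⧸ H) → E) :=
    { toFun := fun F c => F.1 (c.out)⁻¹
      map_add' := fun _ _ => rfl
      map_smul' := fun _ _ => rfl }
  have hinj : Function.Injective Φ := by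
    rw [← LinearMap.ker_eq_bot, LinearMap.ker_eq_bot']
    intro F hF
    ext x
    have h1 : F.1 ((QuotientGroup.mk x⁻¹ : G ⧸ H).out)⁻¹ = 0 := congrFun hF (QuotientGroup.mk x⁻¹)
    obtain ⟨h, hh⟩ := QuotientGroup.mk_out_eq_mul H x⁻¹
    rw [hh] at h1
    have h2 := F.2 h⁻¹ x
    rw [mul_inv_rev, inv_inv] at h1
    rw [← InvMemClass.coe_inv, h2] at h1
    have h3 : σ h (σ h⁻¹ (F.1 x)) = 0 := by rw [h1, map_zero]
    have h4 : σ h (σ h⁻¹ (F.1 x)) = F.1 x := by
      rw [← Module.End.mul_apply, ← map_mul, mul_inv_cancel, map_one, Module.End.one_apply]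
    rw [h4] at h3
    exact h3
  have h5 := LinearMap.finrank_le_finrank_of_injective hinj
  rw [Module.finrank_pi_fintype, Finset.sum_const, Finset.card_univ, smul_eq_mul] at h5
  rw [Subgroup.index, Nat.card_eq_fintype_card]
  exact h5

theorem OverA_ind_ne_bot (H : Subgroup G) (E : Type) [AddCommGroup E] [Module k E]
    [Nontrivial E] (σ : Representation k H E) : OverA_ind H E σ ≠ ⊥ := by
  classical
  obtain ⟨e, he⟩ := exists_ne (0 : E)
  intro hbot
  have hF : (fun x : G => if hx : x ∈ H then σ ⟨x, hx⟩ e else 0) ∈ OverA_ind H E σ := by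
    rw [OverA_mem_ind]
    intro h g
    by_cases hg : g ∈ H
    · have hhg : (h : G) * g ∈ H := H.mul_mem h.2 hg
      simp only [dif_pos hg, dif_pos hhg]
      have : (⟨(h : G) * g, hhg⟩ : H) = h * ⟨g, hg⟩ := rfl
      rw [this, map_mul, Module.End.mul_apply]
    · have hhg : (h : G) * g ∉ H := by
        intro hc
        apply hg
        have := H.mul_mem (H.inv_mem h.2) hc
        rwa [inv_mul_cancel_left] at this
      simp only [dif_neg hg, dif_neg hhg, map_zero]
  rw [hbot, Submodule.mem_bot] at hF
  have h1 := congrFun hF 1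
  simp only [dif_pos H.one_mem, Pi.zero_apply] at h1
  have h2 : (⟨(1 : G), H.one_mem⟩ : H) = 1 := rfl
  rw [h2, map_one, Module.End.one_apply] at h1
  exact he h1

/-- the restriction to a stable subspace -/
noncomputable def OverA_restr {V : Type} [AddCommGroup V] [Module k V] (ρ : Representation k G V)
    (X : Submodule k V) (hX : Stable ρ X) : Representation k G X where
  toFun g := (ρ g).restrict (hX g)
  map_one' := by
    ext x
    rw [LinearMap.coe_restrict_apply, map_one]
    rfl
  map_mul' a b := by
    ext x
    rw [LinearMap.coe_restrict_apply, map_mul]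
    rfl

theorem OverA_restr_coe {V : Type} [AddCommGroup V] [Module k V] (ρ : Representation k G V)
    (X : Submodule k V) (hX : Stable ρ X) (g : G) (x : X) :
    ((OverA_restr ρ X hX g x : X) : V) = ρ g x := rfl

/-- a nonzero stable subspace contains an irreducible one -/
theorem OverA_exists_irr {V : Type} [AddCommGroup V] [Module k V] [FiniteDimensional k V]
    (ρ : Representation k G V) (I : Submodule k V) (hI : Stable ρ I) (hne : I ≠ ⊥) :
    ∃ (X : Submodule k V) (hX : Stable ρ X), X ≤ I ∧ X ≠ ⊥ ∧ Irr (OverA_restr ρ X hX) := by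
  classical
  have hex : ∃ n : ℕ, ∃ X : Submodule k V, Stable ρ X ∧ X ≤ I ∧ X ≠ ⊥ ∧
      Module.finrank k X = n := ⟨_, I, hI, le_rfl, hne, rfl⟩
  obtain ⟨X, hX, hXI, hXne, hXn⟩ := Nat.find_spec hex
  have hmin : ∀ Y : Submodule k V, Stable ρ Y → Y ≤ I → Y ≠ ⊥ →
      Module.finrank k X ≤ Module.finrank k Y := by
    intro Y h1 h2 h3
    rw [hXn]
    exact Nat.find_min' hex ⟨Y, h1, h2, h3, rfl⟩
  refine ⟨X, hX, hXI, hXne, (Submodule.nontrivial_iff_ne_bot).2 hXne, ?_⟩
  intro U hU
  by_cases hU0 : U = ⊥
  · exact Or.inl hU0
  · right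
    have hmap : U.map X.subtype ≤ X := Submodule.map_subtype_le X U
    have hst : Stable ρ (U.map X.subtype) := by
      intro g u hu
      obtain ⟨u', hu', rfl⟩ := Submodule.mem_map.1 hu
      exact Submodule.mem_map.2 ⟨OverA_restr ρ X hX g u', hU g u' hu', rfl⟩
    have hnb : U.map X.subtype ≠ ⊥ := by
      intro hb
      apply hU0
      refine Submodule.map_injective_of_injective X.injective_subtype ?_
      rw [hb, Submodule.map_bot]
    have h1 := hmin _ hst (hmap.trans hXI) hnb
    have h2 : U.map X.subtype = X := Submodule.eq_of_le_of_finrank_le hmap h1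
    have h3 : U.map X.subtype = (⊤ : Submodule k X).map X.subtype := by
      rw [h2, Submodule.map_top, Submodule.range_subtype]
    exact Submodule.map_injective_of_injective X.injective_subtype h3

/-- Every irreducible representation `σ` of a subgroup `H` is a quotient of the restriction of an
irreducible representation `ρ` of `G` of degree at most `H.index` times the degree of `σ`.
Consider the space `I` of the functions `F : G → E` with `F (h * g) = σ h (F g)` for all
`h : H`, `g : G`, on which `G` acts by `(g F) x = F (x * g)`. It is not zero (take a function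
supported on `H`), and of dimension at most `H.index * finrank E`, because `F` is determined by
its values at representatives of the cosets `H g` (`F ↦ (F (r c))_c` is injective into
`(c : Quotient) → E`). Let `X` be a nonzero stable subspace of `I` of the smallest dimension; it
gives an irreducible `ρ`. The map `f : F ↦ F 1` satisfies `f (h F) = F h = σ h (f F)`, and it is
not zero on `X`: some `F ∈ X` and `g` have `F g ≠ 0`, and `(g F) 1 = F g`. -/
theorem exists_over [Finite G] (H : Subgroup G) (E : Type) [AddCommGroup E] [Module k E]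
    (σ : Representation k H E) (hσ : Irr σ) :
    ∃ (X : Type) (_ : AddCommGroup X) (_ : Module k X) (ρ : Representation k G X), Irr ρ ∧
      Module.finrank k X ≤ H.index * Module.finrank k E ∧
      ∃ f : X →ₗ[k] E, f ≠ 0 ∧ ∀ (h : H) (x : X), f (ρ h x) = σ h (f x) := by
  haveI : FiniteDimensional k E := Irr.fd σ hσ
  haveI : Nontrivial E := hσ.1
  obtain ⟨X, hX, hXI, hXne, hirr⟩ := OverA_exists_irr (OverA_tau k G E) (OverA_ind H E σ)
    (OverA_ind_stable H E σ) (OverA_ind_ne_bot H E σ)
  refine ⟨X, inferInstance, inferInstance, OverA_restr (OverA_tau k G E) X hX, hirr, ?_, ?_⟩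
  · exact (Submodule.finrank_mono hXI).trans (OverA_ind_finrank H E σ)
  · refine ⟨(LinearMap.proj (1 : G)).comp X.subtype, ?_, ?_⟩
    · intro hf
      obtain ⟨F, hFX, hF0⟩ := (Submodule.ne_bot_iff X).1 hXne
      apply hF0
      funext g
      have h1 := LinearMap.congr_fun hf ⟨OverA_tau k G E g F, hX g F hFX⟩
      have h2 : OverA_tau k G E g F 1 = 0 := h1
      rw [OverA_tau_apply, one_mul] at h2
      exact h2
    · intro h x
      have h1 : (x : G → E) ((h : G) * 1) = σ h ((x : G → E) 1) := hXI x.2 h 1
      rw [mul_one] at h1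
      change OverA_tau k G E (h : G) (x : G → E) 1 = σ h ((x : G → E) 1)
      rw [OverA_tau_apply, one_mul]
      exact h1

end Pool.Agent.W_bda8s_h78
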