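import Pool.Agent.W_bda8s_h78.Center
import Pool.Agent.W_bda8f3_h78.GapB

/-!
Quotients by `kerDim`.
-/

set_option autoImplicit false

namespace Pool.Agent.W_bda8s_h78

open Pool.Agent.H58_bda8f3 Pool.Agent.W_bda8f3_h78 MonoidAlgebra

variable {k G : Type} [Field k] [Group G]

/-- If no degree of `G` lies in `(a, a * a]`, all degrees of `G ⧸ kerDim k G a` are at most `a`.
`gap` for the quotient with `t = x = a`, `exists_simple_quot`, `simpleDims_quotient`;
`finrank_simple_le` of `W_bda8f3_h78/GoodB.lean`. -/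
theorem degrees_quot_le [Finite G] (a : ℕ) (ha : 1 ≤ a)
    (hgap : ∀ d ∈ simpleDims k G, d ≤ a * a → d ≤ a) :
    ∀ d ∈ simpleDims k (G ⧸ kerDim k G a), d ≤ a := by
  have hg : Good k (G ⧸ kerDim k G a) a ⊤ := by
    refine gap (x := a) (t := a) ha ?_ ?_
    · intro d hd hle
      exact hgap d (simpleDims_quotient (k := k) (kerDim k G a) hd) hle
    · intro h hh
      exact exists_simple_quot a h hh
  rintro d ⟨M, _, _, _, _, hM, rfl⟩
  exact finrank_simple_le hg M hM

/-- The image of `kerDim` in a quotient (inflate the representation, `irr_inflate`). -/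
theorem kerDim_map_le (N : Subgroup G) [N.Normal] (a : ℕ) :
    (kerDim k G a).map (QuotientGroup.mk' N) ≤ kerDim k (G ⧸ N) a := by
  rintro _ ⟨g, hg, rfl⟩
  rw [mem_kerDim_iff]
  intro V _ _ ρ hρ hx
  exact (mem_kerDim_iff a g).1 hg V _ (irr_inflate N ρ hρ) hx

/-- `G / K_1` is abelian: in dimension `1` (irreducible representations have dimension at least
`1`) commutators act trivially. -/
theorem commutator_le_kerDim_one [Finite G] :
    ⁅(⊤ : Subgroup G), (⊤ : Subgroup G)⁆ ≤ kerDim k G 1 := by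
  intro g hg V _ _ _ _ hV hx v
  have h1 := (simple_fd (k := k) (G := G) V hV).2.2
  exact comm_triv_one (k := k) (⊤ : Subgroup G) V (le_antisymm hx h1) g hg v

/-- The kernel of all irreducible representations is trivial (`exists_irr_ne_one`). -/
theorem kerDim_eq_bot [Finite G] (hG : (Nat.card G : k) ≠ 0) (l : ℕ)
    (hl : ∀ d ∈ simpleDims k G, d ≤ l) : kerDim k G l = ⊥ := by
  rw [eq_bot_iff]
  intro g hg
  rw [Subgroup.mem_bot]
  by_contra hne
  obtain ⟨V, _, _, ρ, hρ, hρg⟩ := exists_irr_ne_one (k := k) hG g hne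
  refine hρg ((mem_kerDim_iff l g).1 hg V ρ hρ (hl _ ?_))
  exact (mem_simpleDims_iff _).2 ⟨V, inferInstance, inferInstance, ρ, hρ, rfl⟩

end Pool.Agent.W_bda8s_h78
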