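import Pool.Agent.W_bda8s_h78.AbSub
import Pool.Agent.W_bda8s_h78.QuoDegA

/-!
Abelian normal subgroups modulo `kerDim`.
-/

set_option autoImplicit false

namespace Pool.Agent.W_bda8s_h78

open Pool.Agent.H58_bda8f3 Pool.Agent.W_bda8f3_h78 MonoidAlgebra
open scoped commutatorElement

variable {k G : Type} [Field k] [Group G]

/-- A normal subgroup `A` of `G` of index at most `a ^ 8`, abelian modulo `kerDim k G a`: the
preimage of the subgroup from `exists_char_abelian` for `G ⧸ kerDim k G a`. -/
theorem exists_normal_abelian_mod [Finite G] [IsAlgClosed k] (hnil : Group.IsNilpotent G)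
    (hG : (Nat.card G : k) ≠ 0) (a : ℕ) (ha : 1 ≤ a)
    (hgap : ∀ d ∈ simpleDims k G, d ≤ a * a → d ≤ a) :
    ∃ A : Subgroup G, A.Normal ∧ kerDim k G a ≤ A ∧ ⁅A, A⁆ ≤ kerDim k G a ∧ A.index ≤ a ^ 8 := by
  have hd := degrees_quot_le (k := k) (G := G) a ha hgap
  have hP : (Nat.card (G ⧸ kerDim k G a) : k) ≠ 0 := by
    intro h0
    apply hG
    have h1 : Nat.card (G ⧸ kerDim k G a) = (kerDim k G a).index := rfl
    rw [← (kerDim k G a).card_mul_index, Nat.cast_mul, ← h1, h0, mul_zero]
  have hPnil : Group.IsNilpotent (G ⧸ kerDim k G a) := inferInstance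
  obtain ⟨M, hMc, hMab, hMi⟩ := exists_char_abelian (k := k) (G ⧸ kerDim k G a) hPnil hP a hd
  have hMn : M.Normal := inferInstance
  have hker : kerDim k G a = (QuotientGroup.mk' (kerDim k G a)).ker :=
    (QuotientGroup.ker_mk' _).symm
  refine ⟨M.comap (QuotientGroup.mk' (kerDim k G a)), inferInstance, ?_, ?_, ?_⟩
  · intro g hg
    rw [Subgroup.mem_comap, QuotientGroup.mk'_apply, (QuotientGroup.eq_one_iff g).2 hg]
    exact M.one_mem
  · have h1 : (⁅M.comap (QuotientGroup.mk' (kerDim k G a)),
        M.comap (QuotientGroup.mk' (kerDim k G a))⁆).map (QuotientGroup.mk' (kerDim k G a)) = ⊥ := by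
      rw [Subgroup.map_commutator, eq_bot_iff]
      refine (Subgroup.commutator_mono (Subgroup.map_comap_le _ _)
        (Subgroup.map_comap_le _ _)).trans ?_
      rw [le_bot_iff, Subgroup.commutator_eq_bot_iff_le_centralizer]
      exact Subgroup.le_centralizer M
    rw [Subgroup.map_eq_bot_iff, QuotientGroup.ker_mk'] at h1
    exact h1
  · rw [Subgroup.index_comap_of_surjective _ (QuotientGroup.mk'_surjective _)]
    exact hMi

/-- if the operators commute the dimension is one -/
theorem QuoDegB_comm [Finite G] [IsAlgClosed k] {E : Type} [AddCommGroup E] [Module k E]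
    (σ : Representation k G E) (hσ : Irr σ) (hc : ∀ x y : G, σ x * σ y = σ y * σ x) :
    Module.finrank k E = 1 := by
  have hfd : FiniteDimensional k E := Irr.fd σ hσ
  have hnt : Nontrivial E := hσ.1
  obtain ⟨e, he⟩ := exists_ne (0 : E)
  have hst : Stable σ (Submodule.span k {e}) := by
    intro g u hu
    obtain ⟨c, hc'⟩ := schur σ hσ (σ g) (fun h => hc g h)
    rw [hc']
    simp only [LinearMap.smul_apply]
    exact Submodule.smul_mem _ _ (by simpa using hu)
  rcases hσ.2 _ hst with h | h
  · exfalso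
    rw [Submodule.span_singleton_eq_bot] at h
    exact he h
  · rw [← finrank_top, ← h, finrank_span_singleton he]

/-- Let `⁅A, A⁆ ≤ kerDim k G a`, and let all degrees of `G` be at most `a` or at least `f`. Then
every degree `d` of `A` is `1` or `f ≤ A.index * d`. An irreducible representation `σ` of `A` of
degree `≠ 1` is not trivial on `⁅A, A⁆` (otherwise the operators commute, so they are
scalars by `schur`, and the dimension is `1`), so not trivial on `kerDim k G a`; take `ρ`, `f`
from `exists_over`; if the degree of `ρ` is at most `a`, `kerDim k G a` acts trivially in `ρ`, and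
on its quotient `σ` (`surj_of_ne_zero`), a contradiction. -/
theorem degrees_abelian_mod [Finite G] [IsAlgClosed k] (a f : ℕ) (A : Subgroup G)
    (hA : ⁅A, A⁆ ≤ kerDim k G a) (hf : ∀ d ∈ simpleDims k G, d ≤ a ∨ f ≤ d) :
    ∀ d ∈ simpleDims k A, d = 1 ∨ f ≤ A.index * d := by
  intro d hd
  obtain ⟨E, iE, mE, σ, hσ, hdE⟩ := (mem_simpleDims_iff d).1 hd
  by_cases hd1 : d = 1
  · exact Or.inl hd1
  right
  obtain ⟨X, iX, mX, ρ, hρ, hle, φ, hφ, hφe⟩ := exists_over A E σ hσ
  have hs := surj_of_ne_zero A ρ σ hσ φ hφ hφe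
  have h1 : Module.finrank k X ∈ simpleDims k G :=
    (mem_simpleDims_iff _).2 ⟨X, iX, mX, ρ, hρ, rfl⟩
  rcases hf _ h1 with h2 | h2
  · exfalso
    apply hd1
    rw [← hdE]
    apply QuoDegB_comm σ hσ
    intro x y
    have h3 : ((⁅x, y⁆ : ↥A) : G) ∈ kerDim k G a := by
      apply hA
      have h4 : ((⁅x, y⁆ : ↥A) : G) = ⁅(x : G), (y : G)⁆ := by
        rw [commutatorElement_def, commutatorElement_def]
        push_cast
        rfl
      rw [h4]
      exact Subgroup.commutator_mem_commutator x.2 y.2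
    have h4 : ρ ((⁅x, y⁆ : ↥A) : G) = 1 := (mem_kerDim_iff a _).1 h3 X ρ hρ h2
    have h5 : σ ⁅x, y⁆ = 1 := by
      refine LinearMap.ext fun e => ?_
      obtain ⟨v, rfl⟩ := hs e
      rw [← hφe, h4]
      rfl
    have h6 : x * y = ⁅x, y⁆ * (y * x) := by
      rw [commutatorElement_def]
      group
    rw [← map_mul, ← map_mul, h6, map_mul, h5, one_mul]
  · rw [← hdE]
    exact h2.trans hle

end Pool.Agent.W_bda8s_h78
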