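import Pool.Agent.W_bda8s_h78.Top
import Pool.Agent.W_bda8s_h78.QuoDegB

/-!
The relative step.
-/

set_option autoImplicit false

namespace Pool.Agent.W_bda8s_h78

open Pool.Agent.H58_bda8f3 Pool.Agent.W_bda8f3_h78 MonoidAlgebra

variable {k : Type} [Field k]

/-- The step, in a group all of whose degrees are at most `l`. Let `A` be as in
`exists_normal_abelian_mod` (if `d ≤ a * a` is a degree and not `d ≤ a`, then
`2 ≤ f ≤ d ≤ a * a` and `a ^ 16 ≤ f`, so `a = 1` and `d ≤ 1`, or `a ≥ 2` and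
`a ^ 16 ≤ a ^ 2`, both impossible). The degrees `e ≠ 1` of `A` satisfy
`f ≤ A.index * e ≤ a ^ 8 * e` (`degrees_abelian_mod`), so `f ^ 2 ≤ a ^ 16 * e ^ 2 ≤ f * e ^ 2`, so
`2 ^ (2 ^ s) ≤ f ≤ e ^ 2`. The degrees of `A` are at most `l` (`simpleDims_subgroup_le`). So
`derivedSeries A (r + 7) = ⊥` by `derivedSeries_eq_bot_of_cluster`. And
`derivedSeries H d ≤ kerDim k H a ≤ A`, so `derivedSeries H (d + r + 7)` is contained in the image
of `derivedSeries A (r + 7)` (induction). -/
theorem stepH [IsAlgClosed k] (H : Type) [Group H] [Finite H] (hnil : Group.IsNilpotent H)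
    (hH : (Nat.card H : k) ≠ 0) (a f l s r d : ℕ) (ha : 1 ≤ a)
    (hl : ∀ e ∈ simpleDims k H, e ≤ l) (hf : ∀ e ∈ simpleDims k H, e ≤ a ∨ f ≤ e)
    (haf : a ^ 16 ≤ f) (hfs : 2 ^ (2 ^ s) ≤ f) (hls : l < 2 ^ (2 ^ (s + r + 1)))
    (hd : derivedSeries H d ≤ kerDim k H a) : derivedSeries H (d + r + 7) = ⊥ := by
  have h2f : 2 ≤ f := by
    have h1 : 2 ^ 1 ≤ 2 ^ (2 ^ s) := Nat.pow_le_pow_right (by norm_num) Nat.one_le_two_pow
    omega
  have hgap : ∀ e ∈ simpleDims k H, e ≤ a * a → e ≤ a := by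
    intro e he h1
    rcases hf e he with h | h
    · exact h
    · exfalso
      rcases Nat.lt_or_ge 1 a with h3 | h3
      · have h4 : a ^ 2 < a ^ 16 := Nat.pow_lt_pow_right h3 (by norm_num)
        have h5 : a * a = a ^ 2 := by ring
        omega
      · have h4 : a = 1 := by omega
        subst h4
        omega
  obtain ⟨A, hAn, hKA, hAA, hAi⟩ := exists_normal_abelian_mod (k := k) hnil hH a ha hgap
  have hA : (Nat.card A : k) ≠ 0 := by
    intro h0
    apply hH
    rw [← A.card_mul_index, Nat.cast_mul, h0, zero_mul]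
  have hAnil : Group.IsNilpotent A := inferInstance
  have hdeg : ∀ e ∈ simpleDims k A, e = 1 ∨ 2 ^ (2 ^ s) ≤ e ^ 2 := by
    intro e he
    rcases degrees_abelian_mod a f A hAA hf e he with h | h
    · exact Or.inl h
    · right
      have h1 : f ≤ a ^ 8 * e := h.trans (Nat.mul_le_mul_right e hAi)
      have h2 : f * f ≤ f * e ^ 2 := by
        calc f * f ≤ (a ^ 8 * e) * (a ^ 8 * e) := Nat.mul_le_mul h1 h1
          _ = a ^ 16 * e ^ 2 := by ring
          _ ≤ f * e ^ 2 := Nat.mul_le_mul_right _ haf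
      exact hfs.trans (Nat.le_of_mul_le_mul_left h2 (by omega))
  have hD := derivedSeries_eq_bot_of_cluster (k := k) A hAnil hA l s r
    (simpleDims_subgroup_le A l hl) hls hdeg
  have hind : ∀ m : ℕ, derivedSeries H (d + m) ≤ (derivedSeries A m).map A.subtype := by
    intro m
    induction m with
    | zero =>
      rw [derivedSeries_zero, ← MonoidHom.range_eq_map, Subgroup.range_subtype, add_zero]
      exact hd.trans hKA
    | succ m ih =>
      rw [← add_assoc, derivedSeries_succ, derivedSeries_succ, Subgroup.map_commutator]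
      exact Subgroup.commutator_mono ih ih
  have h1 := hind (r + 7)
  rw [hD, Subgroup.map_bot, le_bot_iff, ← add_assoc] at h1
  exact h1

/-- The step: apply `stepH` to `H = G ⧸ kerDim k G l` (`degrees_quot_le`, `simpleDims_quotient`,
`kerDim_map_le`; the derived series maps onto the derived series of the quotient,
`map_derivedSeries_eq`). -/
theorem stepG [IsAlgClosed k] (G : Type) [Group G] [Finite G] (hnil : Group.IsNilpotent G)
    (hG : (Nat.card G : k) ≠ 0) (a f l s r d : ℕ) (ha : 1 ≤ a) (hl1 : 1 ≤ l)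
    (hl : ∀ e ∈ simpleDims k G, e ≤ l * l → e ≤ l)
    (hf : ∀ e ∈ simpleDims k G, e ≤ a ∨ f ≤ e)
    (haf : a ^ 16 ≤ f) (hfs : 2 ^ (2 ^ s) ≤ f) (hls : l < 2 ^ (2 ^ (s + r + 1)))
    (hd : derivedSeries G d ≤ kerDim k G a) : derivedSeries G (d + r + 7) ≤ kerDim k G l := by
  have hcard : Nat.card (G ⧸ kerDim k G l) = (kerDim k G l).index := rfl
  have hP : (Nat.card (G ⧸ kerDim k G l) : k) ≠ 0 := by
    intro h0
    apply hG
    rw [← (kerDim k G l).card_mul_index, Nat.cast_mul, ← hcard, h0, mul_zero]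
  have hPnil : Group.IsNilpotent (G ⧸ kerDim k G l) := inferInstance
  have hmap : ∀ m : ℕ, (derivedSeries G m).map (QuotientGroup.mk' (kerDim k G l)) =
      derivedSeries (G ⧸ kerDim k G l) m := fun m =>
    map_derivedSeries_eq (QuotientGroup.mk'_surjective _) m
  have h1 := stepH (k := k) (G ⧸ kerDim k G l) hPnil hP a f l s r d ha
    (degrees_quot_le l hl1 hl)
    (fun e he => hf e (simpleDims_quotient (k := k) (kerDim k G l) he)) haf hfs hls
    (by
      rw [← hmap d]
      exact (Subgroup.map_mono hd).trans (kerDim_map_le (k := k) (kerDim k G l) a))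
  rw [← hmap (d + r + 7), Subgroup.map_eq_bot_iff, QuotientGroup.ker_mk'] at h1
  exact h1

end Pool.Agent.W_bda8s_h78
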