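import Pool.Agent.W_bda8s_h78.LemQ
import Pool.Agent.W_bda8s_h78.LemM
import Pool.Agent.W_bda8s_h78.AbSub

/-!
Derived length of groups with degrees in one cluster.
-/

set_option autoImplicit false

namespace Pool.Agent.W_bda8s_h78

open Pool.Agent.H58_bda8f3 Pool.Agent.W_bda8f3_h78 MonoidAlgebra

variable {k : Type} [Field k]

/-- All degrees `d` of the nilpotent group `A` are at most `l < 2 ^ (2 ^ (s + r + 1))`, and `d = 1`
or `2 ^ (2 ^ s) ≤ d ^ 2`. Then `derivedSeries A (r + 7) = ⊥`.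
Let `M` be characteristic abelian with `|A : M| ≤ l ^ 8` (`exists_char_abelian`), `P = A ⧸ M`.
Let `δ = 2` if `s = 0`, and `δ = 2 ^ (2 ^ (s - 1))` if `s ≥ 1`; so all degrees of `A`, and of `P`
(`simpleDims_quotient`), are `1` or at least `δ` (degrees are not `0`; if `s ≥ 1`,
`(2 ^ (2 ^ (s - 1))) ^ 2 = 2 ^ (2 ^ s) ≤ d ^ 2`). By `lemQ` and `pow_le_card`: if
`L (n + 1) ≠ ⊥` in `P` then `δ ^ n ≤ |P| ≤ l ^ 8 < 2 ^ (2 ^ (s + r + 4))` so
`n * 2 ^ (s - 1) < 2 ^ (s + r + 4)`, resp. `n < 2 ^ (r + 4)` for `s = 0`; so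
`n < 2 ^ (r + 5)`. Therefore `L (2 ^ (r + 5) + 1) = ⊥` in `P`; since
`2 ^ (r + 5) + 1 ≤ 2 ^ (r + 6) - 1`, `derivedSeries P (r + 6) = ⊥` by `derivedSeries_le_lcs` of
`W_bda8f3_h78/LogDer.lean`. So `derivedSeries A (r + 6) ≤ M`, which is abelian. -/
theorem derivedSeries_eq_bot_of_cluster [IsAlgClosed k] (A : Type) [Group A] [Finite A]
    (hnil : Group.IsNilpotent A) (hA : (Nat.card A : k) ≠ 0) (l s r : ℕ)
    (hl : ∀ d ∈ simpleDims k A, d ≤ l) (hls : l < 2 ^ (2 ^ (s + r + 1)))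
    (hf : ∀ d ∈ simpleDims k A, d = 1 ∨ 2 ^ (2 ^ s) ≤ d ^ 2) :
    derivedSeries A (r + 7) = ⊥ := by
  obtain ⟨M, hMc, hMab, hMi⟩ := exists_char_abelian (k := k) A hnil hA l hl
  have hMn : M.Normal := inferInstance
  set δ : ℕ := if s = 0 then 2 else 2 ^ (2 ^ (s - 1)) with hδ
  have hδd : ∀ d ∈ simpleDims k (A ⧸ M), d = 1 ∨ δ ≤ d := by
    intro d hd
    rcases hf d (simpleDims_quotient (k := k) M hd) with h | h
    · exact Or.inl h
    · right
      by_cases hs : s = 0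
      · rw [hδ, if_pos hs]
        rw [hs] at h
        by_contra hlt
        have h1 : d ≤ 1 := by omega
        have h2 : d ^ 2 ≤ 1 ^ 2 := Nat.pow_le_pow_left h1 2
        norm_num at h
        omega
      · rw [hδ, if_neg hs]
        have h1 : (2 ^ (2 ^ (s - 1))) ^ 2 = 2 ^ (2 ^ s) := by
          rw [← pow_mul, ← pow_succ]
          congr 2
          omega
        rw [← h1] at h
        exact (Nat.pow_le_pow_iff_left (by norm_num)).1 h
  have hcard : Nat.card (A ⧸ M) = M.index := rfl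
  have hP : (Nat.card (A ⧸ M) : k) ≠ 0 := by
    intro h0
    apply hA
    rw [← M.card_mul_index, Nat.cast_mul, ← hcard, h0, mul_zero]
  have hQ : ∀ T X : Subgroup (A ⧸ M), X.Normal → ⁅T, T⁆ ≤ X →
      ¬ (⊤ : Subgroup (A ⧸ M)).lowerCentralSeries 1 ≤ X → δ ≤ T.index := by
    intro T X hX hT hL
    refine lemQ hP δ hδd T X hT fun h => hL ?_
    rw [Subgroup.lowerCentralSeries_succ, Subgroup.lowerCentralSeries_zero]
    exact h
  have hPnil : Group.IsNilpotent (A ⧸ M) := inferInstance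
  have hL : (⊤ : Subgroup (A ⧸ M)).lowerCentralSeries (2 ^ (r + 5) + 1) = ⊥ := by
    by_contra hne
    have h1 := pow_le_card hPnil δ hQ _ hne
    have h2 : l ^ 8 < 2 ^ (2 ^ (s + r + 4)) := by
      calc l ^ 8 < (2 ^ (2 ^ (s + r + 1))) ^ 8 := Nat.pow_lt_pow_left hls (by norm_num)
        _ = 2 ^ (2 ^ (s + r + 4)) := by
          rw [← pow_mul]
          congr 1
          rw [show s + r + 4 = s + r + 1 + 3 by ring, pow_add 2 (s + r + 1) 3]
          norm_num
    have h3 : 2 ^ (2 ^ (s + r + 4)) ≤ δ ^ (2 ^ (r + 5)) := by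
      by_cases hs : s = 0
      · rw [hδ, if_pos hs, hs]
        apply Nat.pow_le_pow_right (by norm_num)
        apply Nat.pow_le_pow_right (by norm_num)
        omega
      · rw [hδ, if_neg hs, ← pow_mul, ← pow_add]
        apply Nat.pow_le_pow_right (by norm_num)
        apply Nat.pow_le_pow_right (by norm_num)
        omega
    rw [hcard] at h1
    omega
  have hD : derivedSeries (A ⧸ M) (r + 6) = ⊥ := by
    rw [eq_bot_iff, ← hL]
    refine (derivedSeries_le_lcs (r + 6)).trans (Subgroup.lowerCentralSeries_antitone _ ?_)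
    have h1 : 2 ^ (r + 6) = 2 * 2 ^ (r + 5) := by ring
    have h2 : 2 ≤ 2 ^ (r + 5) := by
      calc 2 = 2 ^ 1 := by norm_num
        _ ≤ 2 ^ (r + 5) := Nat.pow_le_pow_right (by norm_num) (by omega)
    omega
  have hDM : derivedSeries A (r + 6) ≤ M := by
    have h1 := map_derivedSeries_le_derivedSeries (QuotientGroup.mk' M) (r + 6)
    rw [hD, le_bot_iff, Subgroup.map_eq_bot_iff, QuotientGroup.ker_mk'] at h1
    exact h1
  rw [show r + 7 = (r + 6) + 1 by ring, derivedSeries_succ, eq_bot_iff]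
  refine (Subgroup.commutator_mono hDM hDM).trans ?_
  rw [le_bot_iff, Subgroup.commutator_eq_bot_iff_le_centralizer]
  exact Subgroup.le_centralizer M

end Pool.Agent.W_bda8s_h78
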